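import Pool.Agent.Lib_helper78.RF.F.FNP

/-!
# Above every oracle there is an oracle with an infinite polynomial hierarchy (Yao, Håstad)
-/

set_option autoImplicit false

namespace Pool.Agent.AIP

open Pool.Agent.CK Pool.Agent.PHS Pool.Agent.RF

/-- the constant operator `R` on the strings that start with `1` -/
def Rc (R : Lang) : Lang → List Bool → Bool := fun _ x => if x = [] then false else R x.tail

theorem Rc_local (R : Lang) : Local (Rc R) := fun _ _ _ _ => rfl

theorem mkO_Rc (R Y : Lang) : mkO (Rc R) Y = join (fun s => Y (false :: s)) R := by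
  funext x
  rw [mkO_eq (Rc_local R)]
  rcases x with _ | ⟨b, x⟩
  · rfl
  · cases b <;> rfl

/-- the goal of a stage -/
def QH (n m : ℕ → ℕ) (s : ℕ) (O : Lang) : Prop :=
  ¬ (SL (dcd s.unpair.1).1 (dcd s.unpair.1).2 O (ones (m s) ++ false :: ones (n s)) =
    true ↔ Srch (dcd s.unpair.1).1 (m s) (n s) O)

theorem QH_local {n m : ℕ → ℕ} (hn : SeqA n)
    (hg : ∀ s, GoodLev (dcd s.unpair.1).1 (dcd s.unpair.1).2 (m s) (n s) (n (s + 1)))
    (s : ℕ) (O O' : Lang) (h : Agree (sl (n (s + 1))) O O') (hQ : QH n m s O) : QH n m s O' := by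
  have hlt : n s < n (s + 1) := hn.1 (Nat.lt_succ_self s)
  unfold QH
  rw [← (hg s).2.2 O O' h, ← Srch_congr (by unfold sl; omega) h]
  exact hQ

theorem stageH {n m : ℕ → ℕ} (R : Lang) (hn : SeqA n)
    (hg : ∀ s, GoodLev (dcd s.unpair.1).1 (dcd s.unpair.1).2 (m s) (n s) (n (s + 1)))
    (s : ℕ) (Y : Lang) (hY : ∀ x : List Bool, sl (n s) ≤ x.length → Y x = false) :
    ∃ Y' : Lang, Agree (sl (n s)) Y Y' ∧
      (∀ x : List Bool, sl (n (s + 1)) ≤ x.length → Y' x = false) ∧
      QH n m s (mkO (Rc R) Y') := by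
  classical
  have hlt : n s < n (s + 1) := hn.1 (Nat.lt_succ_self s)
  obtain ⟨ha, hkill, -⟩ := hg s
  set k := (dcd s.unpair.1).1 with hk
  set s' := (dcd s.unpair.1).2 with hs'
  have h1 : ∀ v : List (X (m s)) → Bool, Agree (sl (n s)) Y (Yv k (m s) (n s) Y v) := by
    intro v x hx
    exact (Yv_len ha Y v (by omega)).symm
  have h2 : ∀ (v : List (X (m s)) → Bool) (x : List Bool), sl (n (s + 1)) ≤ x.length →
      Yv k (m s) (n s) Y v x = false := by
    intro v x hx
    have h3 : sl (n s) < sl (n (s + 1)) := by unfold sl; omega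
    rw [Yv_len ha Y v (by omega)]
    exact hY x (by omega)
  have hcert : ∀ w : List Bool, w.length < sl (n (s + 1)) →
      CertC 1 (fun v => mkO (Rc R) (Yv k (m s) (n s) Y v) w) := by
    intro w _ v
    by_cases hf : w.head? = some false
    · have e : ∀ v', mkO (Rc R) (Yv k (m s) (n s) Y v') w = Yv k (m s) (n s) Y v' w := by
        intro v'
        rw [mkO_eq (Rc_local R), if_pos hf]
      by_cases hl : ∃ l : List (X (m s)), l.length = 2 * k + 1 ∧
          w = saddr (ones (n s)) (flat l) true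
      · obtain ⟨l, hl1, hl2⟩ := hl
        refine ⟨{l}, by simp, fun v' hv' => ?_⟩
        simp only [e]
        rw [hl2, Yv_in ha Y v' l hl1, Yv_in ha Y v l hl1, hv' l (by simp)]
      · refine ⟨∅, by simp, fun v' _ => ?_⟩
        simp only [e]
        rw [Yv_out Y v' hl, Yv_out Y v hl]
    · refine ⟨∅, by simp, fun v' _ => ?_⟩
      have e : ∀ v', mkO (Rc R) (Yv k (m s) (n s) Y v') w = Rc R (fun _ => false) w := by
        intro v'
        rw [mkO_eq (Rc_local R), if_neg hf]
        rfl
      simp only [e]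
  have hreal : ∀ (v : List (X (m s)) → Bool) (l : List (X (m s))), l.length = 2 * k + 1 →
      (v l = true ↔ ¬ ∃ l' : List Bool, (flat l).length + l'.length = (ones (n s)).length ∧
        mkO (Rc R) (Yv k (m s) (n s) Y v) (saddr (ones (n s)) (flat l ++ l') true) = true) := by
    intro v l hl
    have e : ∀ x : List Bool, mkO (Rc R) (Yv k (m s) (n s) Y v) (saddr (ones (n s)) x true) =
        Yv k (m s) (n s) Y v (saddr (ones (n s)) x true) := by
      intro x
      rw [mkO_eq (Rc_local R), if_pos]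
      rfl
    have hfl : (flat l).length = (ones (n s)).length := by
      rw [FNP_ones, length_flat, hl, ha]
    constructor
    · rintro hv ⟨l', h3, h4⟩
      have : l' = [] := by
        apply List.length_eq_zero_iff.1
        omega
      subst this
      rw [List.append_nil, e, Yv_in ha Y v l hl, hv] at h4
      exact absurd h4 (by simp)
    · intro hne
      by_contra hv
      apply hne
      refine ⟨[], by rw [hfl]; rfl, ?_⟩
      rw [List.append_nil, e, Yv_in ha Y v l hl]
      simpa using hv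
  obtain ⟨v, hv⟩ := hkill (fun v => mkO (Rc R) (Yv k (m s) (n s) Y v)) hcert hreal
  exact ⟨_, h1 v, h2 v, hv⟩

/-- Above every oracle there is an oracle with an infinite polynomial hierarchy. -/
theorem hastad_above (R : Lang) : ∃ P : Lang,
    ∀ k, ∃ L, InSig (join P R) (k + 1) L ∧ ¬ InSig (join P R) k L := by
  obtain ⟨n, m, hn, hg⟩ := exists_seqP
  have hb : StrictMono (fun s => sl (n s)) := by
    intro a b hab
    have := hn.1 hab
    change 2 * n a + 2 < 2 * n b + 2
    omega
  obtain ⟨Y, hY⟩ := stage_lemma (Rc_local R) (fun s => sl (n s)) hb (QH n m)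
    (fun s O O' h hQ => QH_local hn hg s O O' h hQ) (fun s Y hY => stageH R hn hg s Y hY)
  refine ⟨fun s => Y (false :: s), ?_⟩
  rw [← mkO_Rc]
  set O := mkO (Rc R) Y with hO
  apply ph_infinite
  intro k
  obtain ⟨Q, hQ1, hQ2⟩ := up (2 * k)
  refine ⟨Q O, hQ1 O, fun s' hs' => ?_⟩
  apply hY (Nat.pair (Encodable.encode (k, s')) 0)
  have hd : dcd (Nat.pair (Encodable.encode (k, s')) 0).unpair.1 = (k, s') := by
    rw [Nat.unpair_pair]
    unfold dcd
    rw [Encodable.encodek, Option.getD_some]
  rw [hd]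
  change SL k s' O _ = true ↔ _
  rw [hs', hQ2]
  rfl

end Pool.Agent.AIP
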