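import Pool.Agent.Lib_helper78.AIP.KL
import Pool.Agent.Lib_helper78.AIP.Has
import Pool.Agent.Lib_helper78.AEC.Closed
import Pool.Agent.Lib_helper78.ADV.Fin

/-!
# The negated form of Q1 above every oracle, without a new collapse of the polynomial hierarchy
-/

set_option autoImplicit false

namespace Pool.Agent.AIP

open Pool.Agent.CK Pool.Agent.RF Pool.Agent.ADV Pool.Agent.PHS Pool.Agent.AEC

theorem inf_join {A H R : Lang} {w : ℕ → List Bool} (hA : InP (fun _ => false) A)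
    (h : Advice A H w) (hR : ∀ k, ∃ L, InSig R (k + 1) L ∧ ¬ InSig R k L) (k : ℕ) :
    ∃ L, InSig (join R H) (k + 1) L ∧ ¬ InSig (join R H) k L := by
  by_contra hcon
  push Not at hcon
  obtain ⟨L, h1, h2⟩ := hR (k + 1)
  exact h2 (no_collapse' hA h.short h.dec k hcon L h1)

theorem mainAIP : ∃ A : Lang, InP (fun _ => false) A ∧
    (∀ R : Lang, ∃ (H : Lang) (w : ℕ → List Bool), Advice A H w ∧
      ((∀ k, ∃ L, InSig R (k + 1) L ∧ ¬ InSig R k L) →
        ∀ k, ∃ L, InSig (join R H) (k + 1) L ∧ ¬ InSig (join R H) k L) ∧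
      (∀ k, (∀ L, InSig (join R H) (k + 1) L → InSig (join R H) k L) →
        ∀ L, InSig R (k + 1) L → ∃ C, InSig R k C ∧ InP (join R C) L) ∧
      (∃ B, Base (join R H) B ∧ ∀ σ, S12 σ → B σ) ∧
      ∀ B, Base (join R H) B → ∃ S, InT (join R H) B S ∧
        (∀ T, InT (join R H) B T → EasyProofs (join R H) S (RFN T)) ∧
        ∀ (i : ℕ) (φ : Fm), LocalFam i φ → (∀ j, φ.free j → j = i) →
          (∀ n, (φ.sb i (num n)).True (join R H)) →
          EasyProofs (join R H) S (fun n => φ.sb i (num n))) ∧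
    ∀ R : Lang, ∃ P : Lang, ∀ k, ∃ L, InSig (join P R) (k + 1) L ∧ ¬ InSig (join P R) k L := by
  obtain ⟨A, hA, h⟩ := final
  refine ⟨A, hA, fun R => ?_, hastad_above⟩
  obtain ⟨H, w, ⟨h1, h2⟩, h3, h4⟩ := h R
  have hAdv : Advice A H w := ⟨h1, h2⟩
  exact ⟨H, w, hAdv, fun hR k => inf_join hA hAdv hR k,
    fun k hk => no_collapse hA h1 h2 k hk, h3, h4⟩

end Pool.Agent.AIP
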