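import Pool.Agent.Lib_helper78.AIP.SeqJ
import Pool.Agent.Lib_helper78.AIP.Fin
import Pool.Agent.Lib_helper78.AEC.TdpNP

/-!
# The negated form of Q1 above every oracle, with trapdoor permutations and an infinite hierarchy
-/

set_option autoImplicit false

namespace Pool.Agent.AIP

open Pool.Agent.CK Pool.Agent.RF Pool.Agent.ADV Pool.Agent.PHS Pool.Agent.AEC

theorem tdpPH (A R : Lang) (β : ℕ → ℕ)
    (hβ : Filter.Tendsto β Filter.atTop Filter.atTop) :
    ∃ (P : Lang) (G F K : List Bool → List Bool),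
      (∀ k, ∃ L, InSig (join P R) (k + 1) L ∧ ¬ InSig (join P R) k L) ∧
      ∀ (H : Lang) (w : ℕ → List Bool), Advice A H w →
        TD.TrapdoorPermutations (join (join P R) H) G F K ∧
          TD.Secure (join (join P R) H) G F (fun n => 2 ^ (n / β n)) := by
  obtain ⟨b, hb, hbβ⟩ := exists_slow β hβ
  obtain ⟨n0, hn0, h40, hNum⟩ := numSlow hb
  obtain ⟨S, hS⟩ := secretsJ A R hNum
  obtain ⟨a, m, ha, hm, hg, hvis⟩ := exists_seqJ hb
  obtain ⟨Z, hPH, hZ⟩ := hastadJ (TD.O0 S) R ha hg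
  refine ⟨join (TD.O0 S) Z, TD.GG S, TD.FF S, TD.HH S, hPH, fun H w hw => ⟨?_, ?_⟩⟩
  · exact TPR.tdp_lift (TPR.tdp_lift (TPR.tdp_lift (TD.tdp S _)))
  · refine secure_mono ?_ (secureJ hNum hS ?_ hw.short hw.dec)
    · filter_upwards [Filter.eventually_ge_atTop n0] with n hn
      have h3 := h40 n hn
      exact Nat.pow_le_pow_right (by norm_num) (Nat.div_le_div_left (hbβ n) (by omega))
    · filter_upwards [Filter.eventually_ge_atTop n0] with n hn
      exact fewJ (k := fun s => (dcd s.unpair.1).1) hm hvis hZ (hn0.trans hn)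

/-- The main theorem. -/
theorem mainAIP2 : ∃ A : Lang, InP (fun _ => false) A ∧
    (∀ R : Lang, ∃ (H : Lang) (w : ℕ → List Bool), Advice A H w ∧
      (∃ B, Base (join R H) B ∧ ∀ σ, S12 σ → B σ) ∧
      ∀ B, Base (join R H) B → ∃ S, InT (join R H) B S ∧
        (∀ T, InT (join R H) B T → EasyProofs (join R H) S (RFN T)) ∧
        ∀ (i : ℕ) (φ : Fm), LocalFam i φ → (∀ j, φ.free j → j = i) →
          (∀ n, (φ.sb i (num n)).True (join R H)) →
          EasyProofs (join R H) S (fun n => φ.sb i (num n))) ∧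
    (∀ (R : Lang) (β : ℕ → ℕ), Filter.Tendsto β Filter.atTop Filter.atTop →
      ∃ (P : Lang) (G F K : List Bool → List Bool),
        ∀ (H : Lang) (w : ℕ → List Bool), Advice A H w →
          TD.TrapdoorPermutations (join (join P R) H) G F K ∧
          TD.Secure (join (join P R) H) G F (fun n => 2 ^ (n / β n)) ∧
          ∀ k, ∃ L, InSig (join (join P R) H) (k + 1) L ∧ ¬ InSig (join (join P R) H) k L) ∧
    ∀ (R H : Lang) (w : ℕ → List Bool), Advice A H w →
      ∀ k, (∀ L, InSig (join R H) (k + 1) L → InSig (join R H) k L) →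
        ∀ L, InSig R (k + 1) L → ∃ C, InSig R k C ∧ InP (join R C) L := by
  obtain ⟨A, hA, h⟩ := final
  refine ⟨A, hA, fun R => ?_, fun R β hβ => ?_, fun R H w hw k hk => ?_⟩
  · obtain ⟨H, w, ⟨h1, h2⟩, h3, h4⟩ := h R
    exact ⟨H, w, ⟨h1, h2⟩, h3, h4⟩
  · obtain ⟨P, G, F, K, h1, h2⟩ := tdpPH A R β hβ
    exact ⟨P, G, F, K, fun H w hw =>
      ⟨(h2 H w hw).1, (h2 H w hw).2, fun k => inf_join hA hw h1 k⟩⟩
  · exact no_collapse hA hw.short hw.dec k hk

end Pool.Agent.AIP
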