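import Pool.Agent.Lib_helper78.AIP.Sub
import Pool.Agent.Lib_helper74.PHS.Glue

/-!
# The polynomial hierarchy relative to `R ⊕ H` is contained in the polynomial hierarchy relative to
`R` with the advice of `H`
-/

set_option autoImplicit false

namespace Pool.Agent.AIP

open Pool.Agent.CK Pool.Agent.CKP Pool.Agent.ADV Pool.Agent.RF Pool.Agent.PHS

theorem fstS_le (y : List Bool) : (fstS y).length ≤ y.length := by
  unfold fstS restS
  simp only [udrop_eq, List.length_reverse, List.length_drop]
  omega

/-- the oracle `R ⊕ H` with `H` computed with the advice `u` -/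
def OvA (A R : Lang) (u : List Bool) : Lang := join R (fun y => A (pairS y u))

theorem OvA_ptime {A R X : Lang} (hA : InP (fun _ => false) A) (hR : PTime X (fun q : List Bool => R q)) :
    PTime X (fun p : List Bool × List Bool => OvA A R p.1 p.2) := by
  have h1 : PTime X (fun p : List Bool × List Bool => R p.2) := hR.comp PTime.id.snd
  have h2 : PTime X (fun p : List Bool × List Bool => A (pairS p.2 p.1)) :=
    (p_free (X := X) hA).comp (p_pairS PTime.id.snd PTime.id.fst)
  exact p_join (P := fun _ : List Bool => R) (Q := fun u y => A (pairS y u)) h1 h2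

/-- the oracle `(R ⊕ H) ⊕ B` with `H` and `B` computed with the advice `u` -/
def OvB (A R E : Lang) (u : List Bool) : Lang := join (OvA A R u) (fun y => E (pairS y u))

theorem OvB_ptime {A R E : Lang} (hA : InP (fun _ => false) A) :
    PTime (join R E) (fun p : List Bool × List Bool => OvB A R E p.1 p.2) := by
  have h1 : PTime (join R E) (fun q : List Bool => R q) :=
    PTime.lift (PTime.ask PTime.id)
  have h2 : PTime (join R E) (fun p : List Bool × List Bool => E (pairS p.2 p.1)) :=
    PTime.askR (p_pairS PTime.id.snd PTime.id.fst)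
  exact p_join (P := OvA A R) (Q := fun u y => E (pairS y u)) (OvA_ptime hA h1) h2

/-- the computation with the advice given as second component of the input -/
def simV (Ov : List Bool → Lang) (c : Cmd) (k : ℕ) (p : List Bool × List Bool) : Bool :=
  decide (p.2.length ≤ ((fstS p.1).length + 2) ^ k) &&
    accU (Ov (sndS p.1)) (cmdD c) (fstS p.1) p.2 (List.replicate (((fstS p.1).length + 2) ^ k) ())

theorem simV_ptime {Ov : List Bool → Lang} {X : Lang}
    (h : PTime X (fun p : List Bool × List Bool => Ov p.1 p.2)) (c : Cmd) (k : ℕ) :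
    PTime X (simV Ov c k) := by
  have h1 : PTime X (fun p : List Bool × List Bool => fstS p.1) := PTime_fstS PTime.id.fst
  have h2 : PTime X (fun p : List Bool × List Bool => p.2) := PTime.id.snd
  have hN : PTime X (fun p : List Bool × List Bool =>
      List.replicate (((fstS p.1).length + 2) ^ k) ()) := (UPoly.tb k).comp h1
  have hl : PTime X (fun p : List Bool × List Bool => ((fstS p.1).length + 2) ^ k) :=
    (PTime.length hN).of_eq fun p => List.length_replicate ..
  have h3 : PTime X (fun q : (List Bool × List Bool) × List Bool => Ov (sndS q.1.1) q.2) :=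
    h.comp ((PTime_sndS PTime.id.fst.fst).pair PTime.id.snd)
  exact (PTime.nat_le (PTime.length h2) hl).and
    (p_accU (Ov := fun p : List Bool × List Bool => Ov (sndS p.1)) h3 (PTime.const _) h1 h2 hN)

theorem simV_iff (Ov : List Bool → Lang) (c : Cmd) (k : ℕ) (x u y : List Bool) :
    simV Ov c k (pairS x u, y) = true ↔
      y.length ≤ (x.length + 2) ^ k ∧ Accepts (Ov u) c x y ((x.length + 2) ^ k) := by
  unfold simV
  rw [Bool.and_eq_true, decide_eq_true_iff, fstS_pair, sndS_pair, accU_iff,
    List.length_replicate]

theorem adv_num (n k e : ℕ) : n + 2 * (n + 2) ^ k + 1 ≤ (n + 2) ^ ((k + 2) * (e + 1)) ∧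
    (n + 2 * (n + 2) ^ k + 1) ^ e ≤ (n + 2) ^ ((k + 2) * (e + 1)) := by
  have h0 : 1 ≤ (n + 2) ^ k := Nat.one_le_pow _ _ (by omega)
  have h1 : n + 2 * (n + 2) ^ k + 1 ≤ (n + 2) ^ (k + 2) := by
    have e1 : (n + 2) ^ (k + 2) = (n + 2) ^ k * ((n + 2) * (n + 2)) := by ring
    rw [e1]
    generalize (n + 2) ^ k = T at h0
    nlinarith [Nat.zero_le (n * T), Nat.mul_le_mul_left n h0]
  have h2 : 1 ≤ (n + 2) ^ (k + 2) := Nat.one_le_pow _ _ (by omega)
  constructor
  · refine h1.trans ?_
    rw [pow_mul]
    exact Nat.le_self_pow (by omega) _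
  · rw [pow_mul, pow_succ]
    exact (Nat.pow_le_pow_left h1 e).trans (Nat.le_mul_of_pos_right _ h2)

theorem adv_sig {A H R : Lang} {w : ℕ → List Bool} (hA : InP (fun _ => false) A)
    (hH : ∀ (n : ℕ) (x : List Bool), x.length ≤ n → H x = A (pairS x (w n))) :
    ∀ (k : ℕ) (L : Lang), InSig (join R H) k L →
      ∃ D, InSig R k D ∧ ∃ c : ℕ, ∀ (x : List Bool) (m : ℕ), (x.length + 2) ^ c ≤ m →
        L x = D (pairS x (w m)) := by
  intro k
  induction k with
  | zero =>
    rintro L ⟨c, k, hc⟩
    refine ⟨fun z => simV (OvA A R) c k (z, []), ?_, (k + 2) * 1, fun x m hm => ?_⟩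
    · exact inP_of ((simV_ptime (OvA_ptime hA (PTime.ask PTime.id)) c k).comp
        (PTime.id.pair (PTime.const _)))
    · have hn := (adv_num x.length k 0).1
      rw [Nat.zero_add] at hn
      have h1 : Accepts (join R H) c x [] ((x.length + 2) ^ k) ↔
          Accepts (OvA A R (w m)) c x [] ((x.length + 2) ^ k) := by
        refine accepts_congr (N := x.length + (x.length + 2) ^ k) le_rfl (by simp) ?_
        intro q hq
        rcases q with _ | ⟨b, q⟩
        · rfl
        · cases b with
          | false => rfl
          | true =>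
            rw [List.length_cons] at hq
            exact hH m q (by omega)
      have h2 := (hc x).2
      rw [Bool.eq_iff_iff, ← h2, h1, simV_iff]
      simp
  | succ k ih =>
    rintro L ⟨B, hB, c, e, -, hc⟩
    obtain ⟨E, hE, cE, hBE⟩ := ih B hB
    classical
    refine ⟨fun z => decide (∃ y, simV (OvB A R E) c e (z, y) = true), ⟨E, hE, ?_⟩,
      (e + 2) * (cE + 1), fun x m hm => ?_⟩
    · refine inNP_of (simV_ptime (OvB_ptime hA) c e) (UPoly.tb e) (fun z hz => ?_)
        fun z y hV => decide_eq_true ⟨y, hV⟩
      obtain ⟨y, hy⟩ := of_decide_eq_true hz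
      refine ⟨y, ?_, hy⟩
      unfold simV at hy
      rw [Bool.and_eq_true, decide_eq_true_iff] at hy
      exact hy.1.trans (Nat.pow_le_pow_left (Nat.add_le_add_right (fstS_le z) 2) _)
    · obtain ⟨g1, g2⟩ := adv_num x.length e cE
      have h1 : ∀ y : List Bool, y.length ≤ (x.length + 2) ^ e →
          (Accepts (join (join R H) B) c x y ((x.length + 2) ^ e) ↔
            Accepts (OvB A R E (w m)) c x y ((x.length + 2) ^ e)) := by
        intro y hy
        refine accepts_congr (N := x.length + 2 * (x.length + 2) ^ e) (by omega) (by omega) ?_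
        intro q hq
        rcases q with _ | ⟨b, q⟩
        · rfl
        · rw [List.length_cons] at hq
          cases b with
          | false =>
            rcases q with _ | ⟨b, q⟩
            · rfl
            · rw [List.length_cons] at hq
              cases b with
              | false => rfl
              | true => exact hH m q (by omega)
          | true =>
            refine hBE q m ?_
            exact (Nat.pow_le_pow_left (by omega) _).trans (g2.trans hm)
      rw [Bool.eq_iff_iff, hc x, decide_eq_true_iff]
      refine exists_congr fun y => ?_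
      rw [simV_iff]
      exact and_congr_right fun hy => h1 y hy

end Pool.Agent.AIP
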