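import Pool.Agent.Lib_helper37.HDH.Num
import Pool.Agent.Lib_helper74.PHS.Glue

/-!
# The depth hierarchy theorem and the diagonalization step with an explicit size
-/

set_option autoImplicit false

open Finset Filter

namespace Pool.Agent.AIP

open Pool.Agent.PHS Pool.Agent.HDH

/-- The depth hierarchy theorem for circuits of fan-in `2 ^ s`. -/
theorem dhS (k s m : ℕ) (hnum : 96 * ((k + 1) * s + 1) * (m * k + 2) ≤ 2 ^ (m / 2))
    (A : Type) [Fintype A] [DecidableEq A] (hA : Fintype.card A = 2 ^ m)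
    (F : (List A → Bool) → Bool) (hF : Lev s k F) : ∃ v, ¬ (F v = true ↔ Sip (k + 1) v) := by
  by_contra hcon
  push Not at hcon
  have hcon' : ∀ v, F v = true ↔ Sip (k + 1) v := by
    intro v
    have := hcon v
    tauto
  set T : ℕ := (k + 1) * s + 1 with hT
  set G : Type := Fin (2 ^ (m / 2)) with hG
  have hcG : Fintype.card G = 2 ^ (m / 2) := by simp [hG]
  have hpos : 0 < 2 ^ (m / 2) := by positivity
  have hGne : Nonempty G := ⟨⟨0, hpos⟩⟩
  have hcard : Fintype.card G * Fintype.card G ≤ Fintype.card A := by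
    rw [hcG, hA, ← pow_add]
    exact Nat.pow_le_pow_right (by norm_num) (by omega)
  have h1 := tr_main (G := G) hGne hcard hF hcon'
  have hT1 : 1 ≤ T := by omega
  have hTm : s ≤ T := by
    rw [hT]; nlinarith
  have h2 : LevP (2 ^ s) T k (Full G k (decide (k % 2 = 0))) := h1.mono le_rfl hTm
  have hTR : (1 : ℝ) ≤ T := by exact_mod_cast hT1
  have hTR0 : (0 : ℝ) < T := by linarith
  set q : ℝ := 1 / (96 * T) with hq
  have hq0 : 0 < q := by positivity
  have hqT : q * T = 1 / 96 := by rw [hq]; field_simp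
  have hq1 : q ≤ 1 / 96 := by
    have : q * 1 ≤ q * T := mul_le_mul_of_nonneg_left hTR hq0.le
    linarith
  have h1q : (0 : ℝ) < 1 - q := by linarith
  refine core G k (2 ^ s) T q (1 / 4) Nat.one_le_two_pow hq0 (by linarith) (by norm_num)
    (by norm_num) ?_ ?_ ?_ ?_ _ h2
  · -- 6 T q/(1-q) (1/(1-q))^T ≤ 1/4
    have hb : (1 : ℝ) / 2 ≤ (1 - q) ^ T := by
      have := one_add_mul_le_pow (show (-2 : ℝ) ≤ -q by linarith) T
      have e : (1 : ℝ) + T * -q = 1 - q * T := by ring
      rw [e, hqT] at this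
      have e2 : (1 : ℝ) + -q = 1 - q := by ring
      rw [e2] at this
      linarith
    have hb2 : (1 / (1 - q)) ^ T ≤ 2 := by
      rw [one_div, inv_pow]
      rw [inv_le_comm₀ (by positivity) (by norm_num)]
      linarith
    have hb3 : q / (1 - q) ≤ 2 * q := by
      rw [div_le_iff₀ h1q]
      nlinarith
    calc 6 * (T : ℝ) * (q / (1 - q)) * (1 / (1 - q)) ^ T
        ≤ 6 * (T : ℝ) * (2 * q) * 2 := by
          refine mul_le_mul (mul_le_mul_of_nonneg_left hb3 (by positivity)) hb2 (by positivity)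
            (by positivity)
      _ = 24 * (q * T) := by ring
      _ ≤ 1 / 4 := by rw [hqT]; norm_num
  · -- S^k d^(T+1) < 1/2
    have e1 : ((2 ^ s : ℕ) : ℝ) ^ k = 2 ^ (s * k) := by
      push_cast
      rw [← pow_mul]
    have e2 : (1 / 4 : ℝ) ^ (T + 1) = 1 / 2 ^ (2 * (T + 1)) := by
      rw [one_div, one_div, inv_pow, pow_mul]
      norm_num
    rw [e1, e2, mul_one_div, div_lt_iff₀ (by positivity)]
    have hle : s * k + 1 < 2 * (T + 1) := by
      rw [hT]; nlinarith
    have h3 : (2 : ℝ) ^ (s * k + 1) < 2 ^ (2 * (T + 1)) :=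
      pow_lt_pow_right₀ (by norm_num) hle
    rw [pow_succ] at h3
    linarith
  · -- 2 |G|^(2k) (1-q)^|G| ≤ 1/2
    rw [hcG]
    have hexp : (1 - q) ^ (2 ^ (m / 2)) ≤ 1 / 2 ^ (m * k + 2) := by
      have hx : (1 - q) ^ (2 ^ (m / 2)) ≤ Real.exp (-(q * (2 ^ (m / 2) : ℕ))) := by
        have h3 : 1 - q ≤ Real.exp (-q) := by
          have := Real.add_one_le_exp (-q)
          linarith
        calc (1 - q) ^ (2 ^ (m / 2)) ≤ (Real.exp (-q)) ^ (2 ^ (m / 2)) :=
              pow_le_pow_left₀ h1q.le h3 _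
          _ = _ := by
              rw [← Real.exp_nat_mul]
              congr 1
              ring
      have hy : ((m * k + 2 : ℕ) : ℝ) ≤ q * (2 ^ (m / 2) : ℕ) := by
        have h4 : ((96 * T * (m * k + 2) : ℕ) : ℝ) ≤ ((2 ^ (m / 2) : ℕ) : ℝ) := by
          exact_mod_cast hnum
        have h5 : ((m * k + 2 : ℕ) : ℝ) = q * (96 * T * (m * k + 2) : ℕ) := by
          rw [hq]
          push_cast
          field_simp
        rw [h5]
        exact mul_le_mul_of_nonneg_left h4 hq0.le
      have hz : Real.exp (-(q * (2 ^ (m / 2) : ℕ))) ≤ 1 / 2 ^ (m * k + 2) := by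
        calc Real.exp (-(q * (2 ^ (m / 2) : ℕ))) ≤ Real.exp (-((m * k + 2 : ℕ) : ℝ)) :=
              Real.exp_le_exp.2 (by linarith)
          _ = 1 / (Real.exp 1) ^ (m * k + 2) := by
              rw [Real.exp_neg, ← Real.exp_one_pow, one_div]
          _ ≤ 1 / 2 ^ (m * k + 2) := by
              refine one_div_le_one_div_of_le (by positivity) ?_
              refine pow_le_pow_left₀ (by norm_num) ?_ _
              have := Real.add_one_le_exp (1 : ℝ)
              linarith
      exact hx.trans hz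
    have hG2 : (((2 ^ (m / 2) : ℕ) : ℝ)) ^ (2 * k) ≤ 2 ^ (m * k) := by
      push_cast
      rw [← pow_mul]
      refine pow_le_pow_right₀ (by norm_num) ?_
      have : m / 2 * 2 ≤ m := Nat.div_mul_le_self m 2
      calc m / 2 * (2 * k) = (m / 2 * 2) * k := by ring
        _ ≤ m * k := Nat.mul_le_mul this le_rfl
    calc 2 * (((2 ^ (m / 2) : ℕ) : ℝ)) ^ (2 * k) * (1 - q) ^ (2 ^ (m / 2))
        ≤ 2 * 2 ^ (m * k) * (1 / 2 ^ (m * k + 2)) := by
          refine mul_le_mul (mul_le_mul_of_nonneg_left hG2 (by norm_num)) hexp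
            (by positivity) (by positivity)
      _ = 1 / 2 := by
          rw [pow_add]
          field_simp
      _ ≤ 1 / 2 := le_rfl
  · -- T < |G|
    rw [hcG]
    calc T < T * 96 := by omega
      _ ≤ T * 96 * (m * k + 2) := Nat.le_mul_of_pos_right _ (by omega)
      _ = 96 * T * (m * k + 2) := by ring
      _ ≤ _ := hnum

end Pool.Agent.AIP
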