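import Pool.Agent.Lib_helper78.AIP.Adv

/-!
# A collapse with short advice gives a collapse without advice (Karp and Lipton)
-/

set_option autoImplicit false

namespace Pool.Agent.AIP

open Pool.Agent.CK Pool.Agent.CKP Pool.Agent.ADV Pool.Agent.RF Pool.Agent.PHS

/-! ## Prefix search -/

section

variable (G : List Bool × List Bool → Bool) (D : Lang) (x u : List Bool)

/-- prefix search for a `y` with `G (x, y)`, with the help of `D` and the advice `u`; the prefix is
kept in reversed order -/
def srch (N : List Unit) (q : List Bool) : List Bool :=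
  N.foldl (fun q _ => if G (x, q.reverse) = true then q else
    D (pairS (pairS x (true :: q).reverse) u) :: q) q

variable {G D x u}

theorem srch_stay {q : List Bool} (h : G (x, q.reverse) = true) (N : List Unit) :
    srch G D x u N q = q := by
  induction N with
  | nil => rfl
  | cons a t ih =>
    unfold srch at ih ⊢
    rw [List.foldl_cons, if_pos h, ih]

theorem srch_spec (N : List Unit) : ∀ q : List Bool, (∃ r, G (x, q.reverse ++ r) = true) →
    (∀ p : List Bool, p.length ≤ q.length + N.length →
      (D (pairS (pairS x p) u) = true ↔ ∃ r, G (x, p ++ r) = true)) →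
    (∃ r, G (x, (srch G D x u N q).reverse ++ r) = true) ∧
      (G (x, (srch G D x u N q).reverse) = true ∨
        (srch G D x u N q).length = q.length + N.length) := by
  induction N with
  | nil => intro q h _; exact ⟨h, Or.inr rfl⟩
  | cons a t ih =>
    intro q h hD
    by_cases hG : G (x, q.reverse) = true
    · rw [srch_stay hG]
      exact ⟨h, Or.inl hG⟩
    · have e : srch G D x u (a :: t) q =
          srch G D x u t (D (pairS (pairS x (true :: q).reverse) u) :: q) := by
        unfold srch
        rw [List.foldl_cons, if_neg hG]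
      rw [e]
      have h1 := hD (true :: q).reverse (by
        rw [List.length_reverse, List.length_cons, List.length_cons]; omega)
      set b := D (pairS (pairS x (true :: q).reverse) u) with hb
      have h2 : ∃ r, G (x, (b :: q).reverse ++ r) = true := by
        cases hbb : b with
        | true => rw [hbb] at h1; exact h1.1 rfl
        | false =>
          obtain ⟨r, hr⟩ := h
          rcases r with _ | ⟨b', r⟩
          · rw [List.append_nil] at hr
            exact absurd hr hG
          · cases b' with
            | false => exact ⟨r, by rw [List.reverse_cons, List.append_assoc]; exact hr⟩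
            | true =>
              exfalso
              have h3 : b = true := h1.2 ⟨r, by
                rw [List.reverse_cons, List.append_assoc]; exact hr⟩
              rw [hbb] at h3
              exact Bool.noConfusion h3
      obtain ⟨g1, g2⟩ := ih (b :: q) h2 (fun p hp => hD p (by
        rw [List.length_cons] at hp ⊢; omega))
      refine ⟨g1, g2.imp_right fun g => ?_⟩
      rw [g, List.length_cons, List.length_cons]
      omega

/-- the search finds `y` -/
theorem srch_find {T : ℕ} (hT : ∀ y, G (x, y) = true → y.length ≤ T) (h : ∃ y, G (x, y) = true)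
    (hD : ∀ p : List Bool, p.length ≤ T + 1 →
      (D (pairS (pairS x p) u) = true ↔ ∃ r, G (x, p ++ r) = true)) :
    G (x, (srch G D x u (List.replicate (T + 1) ()) []).reverse) = true := by
  obtain ⟨⟨r, hr⟩, h2⟩ := srch_spec (G := G) (D := D) (x := x) (u := u)
    (List.replicate (T + 1) ()) [] h (by
      intro p hp
      rw [List.length_replicate, List.length_nil, Nat.zero_add] at hp
      exact hD p hp)
  rcases h2 with h2 | h2
  · exact h2
  · exfalso
    have h3 := hT _ hr
    rw [List.length_append, List.length_reverse, h2, List.length_replicate] at h3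
    omega

end

theorem sz_bool_le (b : Bool) : sz b ≤ 3 := by cases b <;> simp

theorem srch_ptime {X : Lang} {G : List Bool × List Bool → Bool} {D : Lang}
    (hG : PTime X G) (hD : PTime X (fun q : List Bool => D q)) {N : ℕ → ℕ} (hN : UPoly X N) :
    PTime X (fun p : List Bool × List Bool =>
      srch G D p.1 p.2 (List.replicate (N p.1.length) ()) []) := by
  unfold srch
  refine PTime.foldl_add (l := fun p : List Bool × List Bool => List.replicate (N p.1.length) ())
    (i := fun _ => []) (s := fun p q _ => if G (p.1, q.reverse) = true then q else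
      D (pairS (pairS p.1 (true :: q).reverse) p.2) :: q)
    (hN.comp PTime.id.fst) (PTime.const _) ?_ (Polynomial.C 4) ?_
  · have hx : PTime X (fun p : (List Bool × List Bool) × List Bool × Unit => p.1.1) :=
      PTime.id.fst.fst
    have hu : PTime X (fun p : (List Bool × List Bool) × List Bool × Unit => p.1.2) :=
      PTime.id.fst.snd
    have hq : PTime X (fun p : (List Bool × List Bool) × List Bool × Unit => p.2.1) :=
      PTime.id.snd.fst
    refine PTime.ite (hG.comp (hx.pair (PTime.reverse hq))) hq (PTime.cons (hD.comp ?_) hq)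
    exact p_pairS (p_pairS hx (PTime.reverse (PTime.cons (PTime.const true) hq))) hu
  · intro p q _ _
    rw [Polynomial.eval_C]
    split_ifs
    · omega
    · rw [sz_cons]
      have := sz_bool_le (D (pairS (pairS p.1 (true :: q).reverse) p.2))
      omega

/-! ## Joins -/

theorem np_join {X B D : Lang} (hB : InNP X B) (hD : InNP X D) : InNP X (join B D) := by
  obtain ⟨c, k, -, hc⟩ := hB
  obtain ⟨c', k', -, hc'⟩ := hD
  have hX : PTime X (fun q : List Bool => X q) := PTime.ask PTime.id
  have hg := AFF.g_V_ptime hX c k
  have hg' := AFF.g_V_ptime hX c' k'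
  have hz : PTime X (fun p : List Bool × List Bool => p.1) := PTime.id.fst
  have ht : PTime X (fun p : List Bool × List Bool => (p.1.tail, p.2)) :=
    (PTime.tail hz).pair PTime.id.snd
  have hV : PTime X (fun p : List Bool × List Bool => if p.1.isEmpty = true then false else
      if p.1.headD false = true then AFF.g_V X c' k' (p.1.tail, p.2) else
        AFF.g_V X c k (p.1.tail, p.2)) :=
    PTime.ite (PTime.isNil hz) (PTime.const false) (PTime.ite (PTime.headD hz (PTime.const false))
      (hg'.comp ht) (hg.comp ht))
  refine inNP_of hV (UPoly.tb (k + k')) (fun z hz => ?_) fun z y hy => ?_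
  · rcases z with _ | ⟨b, z⟩
    · exact absurd hz (by simp [join])
    · cases b with
      | false =>
        obtain ⟨y, h1, h2⟩ := (hc z).1 hz
        refine ⟨y, h1.trans ?_, (AFF.g_V_iff X c k z y).2 ⟨h1, h2⟩⟩
        calc (z.length + 2) ^ k ≤ ((false :: z).length + 2) ^ k :=
              Nat.pow_le_pow_left (by rw [List.length_cons]; omega) _
          _ ≤ ((false :: z).length + 2) ^ (k + k') :=
              Nat.pow_le_pow_right (by omega) (by omega)
      | true =>
        obtain ⟨y, h1, h2⟩ := (hc' z).1 hz
        refine ⟨y, h1.trans ?_, (AFF.g_V_iff X c' k' z y).2 ⟨h1, h2⟩⟩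
        calc (z.length + 2) ^ k' ≤ ((true :: z).length + 2) ^ k' :=
              Nat.pow_le_pow_left (by rw [List.length_cons]; omega) _
          _ ≤ ((true :: z).length + 2) ^ (k + k') :=
              Nat.pow_le_pow_right (by omega) (by omega)
  · rcases z with _ | ⟨b, z⟩
    · exact absurd hy (by simp)
    · cases b with
      | false => exact (hc z).2 ⟨y, (AFF.g_V_iff X c k z y).1 hy⟩
      | true => exact (hc' z).2 ⟨y, (AFF.g_V_iff X c' k' z y).1 hy⟩

/-- reading a join inside a larger join, left part -/
theorem read_left {R B D : Lang} : PTime (join R (join B D)) (fun q : List Bool => join R B q) := by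
  have h1 : PTime (join R (join B D)) (fun q : List Bool => R q) := PTime.lift (PTime.ask PTime.id)
  have h2 : PTime (join R (join B D)) (fun q : List Bool => B q) :=
    (PTime.askR (B := join B D) (PTime.cons (PTime.const false) PTime.id)).of_eq fun _ => rfl
  exact (p_join (γ := Unit) (P := fun _ => R) (Q := fun _ => B) (h1.comp PTime.id.snd)
    (h2.comp PTime.id.snd)).comp ((PTime.const ()).pair PTime.id)

/-- reading a join inside a larger join, right part -/
theorem read_right {R B D : Lang} :
    PTime (join R (join B D)) (fun q : List Bool => join R D q) := by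
  have h1 : PTime (join R (join B D)) (fun q : List Bool => R q) := PTime.lift (PTime.ask PTime.id)
  have h2 : PTime (join R (join B D)) (fun q : List Bool => D q) :=
    (PTime.askR (B := join B D) (PTime.cons (PTime.const true) PTime.id)).of_eq fun _ => rfl
  exact (p_join (γ := Unit) (P := fun _ => R) (Q := fun _ => D) (h1.comp PTime.id.snd)
    (h2.comp PTime.id.snd)).comp ((PTime.const ()).pair PTime.id)

theorem sig_join {R : Lang} : ∀ (k : ℕ) (B D : Lang), InSig R k B → InSig R k D →
    InSig R k (join B D) := by
  intro k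
  induction k with
  | zero =>
    intro B D hB hD
    exact inP_of ((p_join (γ := Unit) (P := fun _ => B) (Q := fun _ => D)
      ((ptime_of_inP hB).comp PTime.id.snd) ((ptime_of_inP hD).comp PTime.id.snd)).comp
      ((PTime.const ()).pair PTime.id))
  | succ k ih =>
    rintro B D ⟨B1, hB1, hB⟩ ⟨D1, hD1, hD⟩
    exact ⟨join B1 D1, ih B1 D1 hB1 hD1, np_join (AFF.sub_InNP read_left hB)
      (AFF.sub_InNP read_right hD)⟩

/-- the hierarchy is monotone in the oracle -/
theorem sig_mono {R H : Lang} : ∀ (k : ℕ) (L : Lang), InSig R k L → InSig (join R H) k L := by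
  have h0 : PTime (join R H) (fun q : List Bool => R q) := PTime.lift (PTime.ask PTime.id)
  intro k
  induction k with
  | zero => intro L hL; exact AFF.sub_InP h0 hL
  | succ k ih =>
    rintro L ⟨B, hB, hL⟩
    refine ⟨B, ih B hB, AFF.sub_InNP ?_ hL⟩
    exact (p_join (γ := Unit) (P := fun _ => R) (Q := fun _ => B) ((PTime.lift h0).comp
      PTime.id.snd) ((PTime.askR (PTime.id (α := List Bool))).comp PTime.id.snd)).comp
      ((PTime.const ()).pair PTime.id)

/-! ## Numbers -/

theorem kl_num (n e c : ℕ) : (2 * n + (n + 2) ^ e + 4) ^ c ≤ (n + 2) ^ ((e + 3) * c) := by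
  rw [pow_mul]
  refine Nat.pow_le_pow_left ?_ _
  have h0 : 1 ≤ (n + 2) ^ e := Nat.one_le_pow _ _ (by omega)
  have e1 : (n + 2) ^ (e + 3) = (n + 2) ^ e * ((n + 2) * (n + 2) * (n + 2)) := by ring
  have h3 : 8 * (n + 1) ≤ (n + 2) * (n + 2) * (n + 2) := by
    nlinarith [Nat.zero_le (n * n), Nat.zero_le (n * n * n)]
  rw [e1]
  calc 2 * n + (n + 2) ^ e + 4 ≤ (n + 2) ^ e * (8 * (n + 1)) := by
        generalize (n + 2) ^ e = T at h0
        nlinarith [Nat.mul_le_mul_left n h0]
    _ ≤ _ := Nat.mul_le_mul_left _ h3

theorem word_num {u : List Bool} {m : ℕ} (h : u.length ≤ Nat.log 2 (Nat.log 2 m)) :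
    ofBits (u ++ [true]) < 2 * m + 2 := by
  have h1 := ofBits_lt (u ++ [true])
  rw [List.length_append, List.length_singleton] at h1
  have h2 : 2 ^ (u.length + 1) ≤ 2 * m + 2 := by
    have h3 : 2 ^ u.length ≤ m + 1 := by
      refine (Nat.pow_le_pow_right (by omega) h).trans ?_
      rcases Nat.eq_zero_or_pos (Nat.log 2 m) with h0 | h0
      · rw [h0]; simp
      · refine (Nat.pow_log_le_self 2 (by omega)).trans ?_
        have := Nat.log_le_self 2 m
        omega
    rw [pow_succ]
    omega
  omega

/-! ## The theorem -/

theorem kl_step {R : Lang} {w : ℕ → List Bool}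
    (hw : ∀ n, (w n).length ≤ Nat.log 2 (Nat.log 2 n)) (k : ℕ)
    (h : ∀ L, InSig R (k + 1) L → ∃ D, InSig R k D ∧ ∃ c : ℕ, ∀ (x : List Bool) (m : ℕ),
      (x.length + 2) ^ c ≤ m → L x = D (pairS x (w m))) :
    ∀ L, InSig R (k + 1) L → ∃ C, InSig R k C ∧ InP (join R C) L := by
  classical
  rintro L ⟨B, hB, c, e, -, hc⟩
  set G := AFF.g_V (join R B) c e with hG
  have hL : ∀ x, L x = true ↔ ∃ y, G (x, y) = true := by
    intro x
    rw [hc x]
    exact exists_congr fun y => (AFF.g_V_iff (join R B) c e x y).symm
  have hT : ∀ x y, G (x, y) = true → y.length ≤ (x.length + 2) ^ e := fun x y hy =>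
    ((AFF.g_V_iff (join R B) c e x y).1 hy).1
  -- the language of the prefixes
  obtain ⟨D, hD, κ, hκ⟩ := h (fun z => decide (∃ r, G (fstS z, sndS z ++ r) = true)) (by
    refine ⟨B, hB, ?_⟩
    have hV : PTime (join R B) (fun p : List Bool × List Bool => G (fstS p.1, sndS p.1 ++ p.2)) :=
      (AFF.g_V_ptime (PTime.ask PTime.id) c e).comp ((PTime_fstS PTime.id.fst).pair
        (PTime.append (PTime_sndS PTime.id.fst) PTime.id.snd))
    refine inNP_of hV (UPoly.tb e) (fun z hz => ?_) fun z y hy => decide_eq_true ⟨y, hy⟩
    obtain ⟨r, hr⟩ := of_decide_eq_true hz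
    refine ⟨r, ?_, hr⟩
    have h1 := hT _ _ hr
    rw [List.length_append] at h1
    have h2 : ((fstS z).length + 2) ^ e ≤ (z.length + 2) ^ e :=
      Nat.pow_le_pow_left (Nat.add_le_add_right (fstS_le z) 2) _
    omega)
  have hC := sig_join k B D hB hD
  refine ⟨join B D, hC, ?_⟩
  -- the algorithm
  set X := join R (join B D) with hX
  set mm : ℕ → ℕ := fun n => (n + 2) ^ ((e + 3) * κ) with hmm
  have hGX : PTime X G := AFF.g_V_ptime read_left c e
  have hDX : PTime X (fun q : List Bool => D q) :=
    (PTime.askR (B := join B D) (PTime.cons (PTime.const true) PTime.id)).of_eq fun _ => rfl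
  have hs : PTime X (fun p : List Bool × List Bool =>
      srch G D p.1 p.2 (List.replicate ((p.1.length + 2) ^ e + 1) ()) []) :=
    srch_ptime hGX hDX ((UPoly.tb e).add (UPoly.const 1))
  have hM : PTime X (fun x : List Bool => rangeU (List.replicate (2 * mm x.length + 2) ())) :=
    PTime.rangeU ((((UPoly.const 2).mul (UPoly.tb ((e + 3) * κ))).add (UPoly.const 2)).comp
      PTime.id)
  have hE : PTime X (fun x : List Bool => (rangeU (List.replicate (2 * mm x.length + 2) ())).any
      (fun v => G (x, (srch G D x v.length.bits.dropLast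
        (List.replicate ((x.length + 2) ^ e + 1) ()) []).reverse))) := by
    refine PTime.any hM ?_
    have h1 : PTime X (fun p : List Bool × List Unit => (p.1, p.2.length.bits.dropLast)) :=
      PTime.id.fst.pair (PTime.dropLast (PTime.bits (PTime.length PTime.id.snd)))
    exact hGX.comp (PTime.id.fst.pair (PTime.reverse (hs.comp h1)))
  refine inP_of (hE.of_eq fun x => ?_)
  rw [Bool.eq_iff_iff, hL x, List.any_eq_true]
  constructor
  · rintro ⟨v, -, hv⟩
    exact ⟨_, hv⟩
  · intro hx
    set m := mm x.length with hm
    refine ⟨List.replicate (ofBits (w m ++ [true])) (), ?_, ?_⟩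
    · rw [rangeU_replicate, List.mem_map]
      exact ⟨_, List.mem_range.2 (word_num (hw m)), rfl⟩
    · rw [List.length_replicate, bits_ofBits_snoc, List.dropLast_concat]
      refine srch_find (hT x) hx fun p hp => ?_
      rw [← hκ (pairS x p) m]
      · rw [decide_eq_true_iff, fstS_pair, sndS_pair]
      · refine (Nat.pow_le_pow_left ?_ κ).trans (kl_num x.length e κ)
        have h1 : (pairS x p).length = 2 * x.length + 1 + p.length := by
          unfold pairS RF.tag
          simp only [List.length_append, List.length_replicate, List.length_singleton]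
          omega
        rw [h1]
        omega

/-- Weak oracles do not cause a collapse. -/
theorem no_collapse {A H R : Lang} {w : ℕ → List Bool} (hA : InP (fun _ => false) A)
    (hw : ∀ n, (w n).length ≤ Nat.log 2 (Nat.log 2 n))
    (hH : ∀ (n : ℕ) (x : List Bool), x.length ≤ n → H x = A (pairS x (w n))) (k : ℕ)
    (h : ∀ L, InSig (join R H) (k + 1) L → InSig (join R H) k L) :
    ∀ L, InSig R (k + 1) L → ∃ C, InSig R k C ∧ InP (join R C) L :=
  kl_step hw k fun L hL => adv_sig hA hH k L (h L (sig_mono (k + 1) L hL))

theorem no_collapse' {A H R : Lang} {w : ℕ → List Bool} (hA : InP (fun _ => false) A)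
    (hw : ∀ n, (w n).length ≤ Nat.log 2 (Nat.log 2 n))
    (hH : ∀ (n : ℕ) (x : List Bool), x.length ≤ n → H x = A (pairS x (w n))) (k : ℕ)
    (h : ∀ L, InSig (join R H) (k + 1) L → InSig (join R H) k L) :
    ∀ L, InSig R (k + 2) L → InSig R (k + 1) L := by
  rintro L ⟨B, hB, hL⟩
  obtain ⟨C, hC, hBC⟩ := no_collapse hA hw hH k h B hB
  refine ⟨C, hC, AFF.sub_InNP ?_ hL⟩
  have h1 : PTime (join R C) (fun q : List Bool => R q) := PTime.lift (PTime.ask PTime.id)
  exact (p_join (γ := Unit) (P := fun _ => R) (Q := fun _ => B) (h1.comp PTime.id.snd)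
    ((ptime_of_inP hBC).comp PTime.id.snd)).comp ((PTime.const ()).pair PTime.id)

end Pool.Agent.AIP
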