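import Pool.Agent.Lib_helper78.AEC.NumC

/-!
# Trapdoor permutations relative to `((secrets ⊕ Z) ⊕ R) ⊕ H`, `Z` with few ones of small length
-/

set_option autoImplicit false

namespace Pool.Agent.AIP

open Pool.Agent.CK Pool.Agent.TD Pool.Agent.TPR Pool.Agent.ADV Pool.Agent.AEC

/-- the adversaries of level `n` -/
def FJ (A R : Lang) (T K : ℕ → ℕ) (N : ℕ) : Fam := fun n =>
  {B | n ≤ N ∧ ∃ c : Cmd, Encodable.encode c ≤ n ∧ ∃ w : Str, w.length ≤ T n ∧
    ∃ t ≤ T n, ∃ p ∈ IX T K n, B = fun x =>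
      TPR.hw (dl p.2) (TPR.hw R (TPR.hw (fun y => A (pairS y p.1))
        ((runTree t ([c], init x.1 w)).map fun cf => cf.2 0)))}

theorem FJ_ok (A R : Lang) (T K : ℕ → ℕ) (N n : ℕ) : CardBd (FJ A R T K N n) (aqG T K n) ∧
    ∀ B ∈ FJ A R T K N n, ∀ x, (B x).depth ≤ T n := by
  constructor
  · have hc := card_image (fun p : ((ℕ × Str) × ℕ) × (Str × Finset Str) =>
      fun x : X (2 * n) => TPR.hw (dl p.2.2) (TPR.hw R (TPR.hw (fun y => A (pairS y p.2.1))
        ((runTree p.1.2 ([(Encodable.decode p.1.1.1 : Option Cmd).getD Cmd.skip],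
          init x.1 p.1.1.2)).map fun cf => cf.2 0))))
      (card_prod (card_prod (card_prod (card_nat n) (card_str (T n))) (card_nat (T n)))
        (IX_card T K n))
    refine card_mono hc ?_ ?_
    · rintro B ⟨_, c, hcn, w, hw, t, ht, p, hp, rfl⟩
      refine ⟨(((Encodable.encode c, w), t), p), ⟨⟨⟨hcn, hw⟩, ht⟩, hp⟩, ?_⟩
      funext x
      simp only [Encodable.encodek, Option.getD_some]
    · unfold aqG
      omega
  · rintro B ⟨_, c, hcn, w, hw, t, ht, p, hp, rfl⟩ x
    refine (depth_hw _ _).trans ((depth_hw _ _).trans ((depth_hw _ _).trans ?_))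
    rw [DT.depth_map]
    exact (mach_depth_runTree _ _).trans ht

/-- the oracle of the adversaries -/
noncomputable def OJ (S : Sec) (Z R H : Lang) : Lang := join (join (join (O0 S) Z) R) H

theorem hits_J (S : Sec) (Z R B : Lang) (n : ℕ) (c : Cmd) (w : Str) (t : ℕ) :
    hits n (vv S n) (fun x => TPR.hw Z (TPR.hw R (TPR.hw B
      ((runTree t ([c], init x.1 w)).map fun cf => cf.2 0)))) (O0 S) =
      succ5 S (OJ S Z R B) n c w t := by
  unfold hits succ5
  congr 1
  apply Finset.filter_congr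
  intro x _
  rw [eval_hw, eval_hw, eval_hw, DT.eval_map, mach_eval_runTree]
  rfl

/-- Secrets that defeat all adversaries. -/
theorem secretsJ (A R : Lang) {T K : ℕ → ℕ} {n0 : ℕ} (hN : NumG T K n0) :
    ∃ S : Sec, ∀ n, n0 ≤ n → ∀ p ∈ IX T K n, ∀ c : Cmd, Encodable.encode c ≤ n →
      ∀ w : Str, w.length ≤ T n → ∀ t ≤ T n,
        T n * succ5 S (OJ S (dl p.2) R (fun y => A (pairS y p.1))) n c w t < 4 ^ n := by
  have hor : ∀ N : ℕ, ∃ S : Sec, ∀ n, n0 ≤ n → n ≤ N → ∀ p ∈ IX T K n, ∀ c : Cmd,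
      Encodable.encode c ≤ n → ∀ w : Str, w.length ≤ T n → ∀ t ≤ T n,
        T n * succ5 S (OJ S (dl p.2) R (fun y => A (pairS y p.1))) n c w t < 4 ^ n := by
    intro N
    obtain ⟨S, hS⟩ := baseG n0 (aqG T K) T kq T (fun n _ => numq1 n)
      (fun n hn => by
        have h1 := hN.num2 n hn
        have h2 : aqG T K n ≤ aqG' T K n := by
          unfold aqG'
          exact Nat.le_add_right _ _
        omega)
      (fun n hn => by
        refine lt_of_le_of_lt ?_ (hN.num3 n hn)
        have h1 : T n ≤ dqG T n := by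
          unfold dqG
          exact Nat.le_add_right _ _
        have h2 : kq n * (T n + 2) ≤ kq n * (dqG T n + 2) := Nat.mul_le_mul_left _ (by omega)
        have h3 := Nat.mul_le_mul_left (2 ^ n) h2
        exact Nat.mul_le_mul (by omega) (Nat.add_le_add h3 h3))
      N (FJ A R T K N) (fun n _ => FJ_ok A R T K N n) (fun n hn => by
        rw [Set.eq_empty_iff_forall_notMem]
        rintro B ⟨h1, _⟩
        omega)
    refine ⟨S, fun n hn hnN p hp c hc w hw t ht => ?_⟩
    rw [← hits_J]
    exact hS n hn _ ⟨hnN, c, hc, w, hw, t, ht, p, hp, rfl⟩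
  choose Ss hSs using hor
  obtain ⟨S, Tab, -, hag⟩ := compactness Ss (fun _ _ _ => []) (fun _ _ _ => Nat.zero_le _)
  refine ⟨S, fun n hn p hp c hc w hw t ht => ?_⟩
  obtain ⟨N, hbN, hN', -⟩ := hag (mqG T n)
  have hnm : n ≤ mqG T n := by unfold mqG; omega
  have hag' : Agree (mqG T n) S (Ss N) (fun _ _ => []) (fun _ _ => []) :=
    ⟨hN', fun _ _ _ _ => rfl⟩
  have h1 := hSs N n hn (by omega) p hp c hc w hw t ht
  have e : succ5 S (OJ S (dl p.2) R (fun y => A (pairS y p.1))) n c w t =
      succ5 (Ss N) (OJ (Ss N) (dl p.2) R (fun y => A (pairS y p.1))) n c w t := by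
    unfold succ5
    have hv : vv S n = vv (Ss N) n := agr_vv (hN' n (by unfold mqG; omega)).2
    congr 1
    apply Finset.filter_congr
    intro x _
    rw [hv, run_congrG T c x w hw t ht
      (O' := OJ (Ss N) (dl p.2) R (fun y => A (pairS y p.1)))]
    intro q hq
    match q with
    | [] => rfl
    | true :: q => rfl
    | [false] => rfl
    | false :: true :: q => rfl
    | [false, false] => rfl
    | false :: false :: true :: q => rfl
    | false :: false :: false :: q =>
      simp only [List.length_cons] at hq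
      exact orc_agree hag' q (by omega)
  rw [e]
  exact h1

/-- Security, if `Z` has few ones of small length. -/
theorem secureJ {A R : Lang} {T K : ℕ → ℕ} {n0 : ℕ} (hNum : NumG T K n0) {S : Sec}
    (hS : ∀ n, n0 ≤ n → ∀ p ∈ IX T K n, ∀ c : Cmd, Encodable.encode c ≤ n →
      ∀ w : Str, w.length ≤ T n → ∀ t ≤ T n,
        T n * succ5 S (OJ S (dl p.2) R (fun y => A (pairS y p.1))) n c w t < 4 ^ n)
    {Z : Lang} (hZ : ∀ᶠ n in Filter.atTop, ∃ D : Finset Str, D.card ≤ K n ∧
      (∀ w ∈ D, w.length ≤ mqG T n) ∧ ∀ w : Str, w.length ≤ mqG T n → Z w = dl D w)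
    {H : Lang} {w : ℕ → Str} (hw1 : ∀ n, (w n).length ≤ Nat.log 2 (Nat.log 2 n))
    (hw2 : ∀ (n : ℕ) (x : Str), x.length ≤ n → H x = A (pairS x (w n))) :
    Secure (OJ S Z R H) (GG S) (FF S) T := by
  intro c
  filter_upwards [hZ, Filter.eventually_ge_atTop n0,
    Filter.eventually_ge_atTop (Encodable.encode c)] with n hD hn hc u hu t ht
  obtain ⟨D, hD1, hD2, hD3⟩ := hD
  have h1 := hS n hn (w (mqG T n), D) ⟨(hw1 _).trans (hNum.log n hn), hD1, hD2⟩ c hc u hu t ht
  have e : succ5 S (OJ S Z R H) n c u t =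
      succ5 S (OJ S (dl D) R (fun y => A (pairS y (w (mqG T n))))) n c u t := by
    unfold succ5
    congr 1
    apply Finset.filter_congr
    intro x _
    rw [run_congrG T c x u hu t ht
      (O' := OJ S (dl D) R (fun y => A (pairS y (w (mqG T n)))))]
    intro q hq
    match q with
    | [] => rfl
    | true :: q =>
      simp only [List.length_cons] at hq
      exact hw2 _ q (by omega)
    | [false] => rfl
    | false :: true :: q => rfl
    | [false, false] => rfl
    | false :: false :: false :: q => rfl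
    | false :: false :: true :: q =>
      simp only [List.length_cons] at hq
      exact hD3 q (by omega)
  rw [← e] at h1
  unfold succ5 at h1
  rw [← inversions_eq] at h1
  exact h1

end Pool.Agent.AIP
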