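import Pool.Agent.Lib_helper78.AIP.SlotJ
import Pool.Agent.Lib_helper78.AIP.SecJ
import Pool.Agent.Lib_helper78.AIP.KL

/-!
# The sequence of slots, trapdoor permutations together with an infinite hierarchy
-/

set_option autoImplicit false

namespace Pool.Agent.AIP

open Pool.Agent.CK Pool.Agent.PHS Pool.Agent.AEC

theorem lin_le (A B : ℕ) : ∃ q0, ∀ q ≥ q0, A * q + B ≤ 2 ^ q := by
  obtain ⟨q1, hq1⟩ := Filter.eventually_atTop.1 (enum_pow 2)
  refine ⟨max q1 (A + B), fun q hq => le_trans ?_ (hq1 q ((le_max_left _ _).trans hq))⟩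
  have h1 : A + B ≤ q := (le_max_right _ _).trans hq
  have h2 : A * q ≤ q * q := Nat.mul_le_mul_right _ (by omega)
  have h3 : (q + 2) ^ 2 = q * q + 4 * q + 4 := by ring
  omega

/-- bound for time and advice -/
def Tb (b : ℕ → ℕ) (n : ℕ) : ℕ := 2 ^ (n / b n)

/-- the length of the slot -/
def aJ (b : ℕ → ℕ) (C m : ℕ) : ℕ := ((Finset.range (C * m + 1)).sup fun n => n + Tb b n) + 1

theorem aJ_ge (b : ℕ → ℕ) (C m : ℕ) : C * m + 1 ≤ aJ b C m := by
  have h : C * m + Tb b (C * m) ≤ (Finset.range (C * m + 1)).sup fun n => n + Tb b n :=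
    Finset.le_sup (f := fun n => n + Tb b n) (Finset.mem_range.2 (Nat.lt_succ_self _))
  unfold aJ
  omega

theorem aJ_vis (b : ℕ → ℕ) (C m n : ℕ) (h : 2 * aJ b C m ≤ mqG (Tb b) n) : C * m ≤ n := by
  by_contra hc
  have h1 : n + Tb b n ≤ (Finset.range (C * m + 1)).sup fun n => n + Tb b n :=
    Finset.le_sup (f := fun n => n + Tb b n) (Finset.mem_range.2 (by omega))
  unfold aJ mqG at h
  omega

theorem aJ_le {b : ℕ → ℕ} (hb : Slow b) (C G : ℕ) (hC : 0 < C) (hG : 0 < G) :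
    ∃ m0, ∀ m ≥ m0, m + 1 + aJ b C m + 2 ≤ 2 ^ (m / G) := by
  obtain ⟨N, hN⟩ := Filter.eventually_atTop.1 (Filter.tendsto_atTop.1 hb.tends (C * (2 * G)))
  obtain ⟨q0, hq0⟩ := lin_le ((C + 1) * (2 * G)) ((C + 1) * (2 * G) + 2 ^ N + 4)
  refine ⟨2 * G * (max q0 1), fun m hm => ?_⟩
  have hq : max q0 1 ≤ m / (2 * G) := by
    rw [Nat.le_div_iff_mul_le (by omega), mul_comm]
    exact hm
  have hq1 : q0 ≤ m / (2 * G) := (le_max_left _ _).trans hq
  have hq2 : 1 ≤ m / (2 * G) := (le_max_right _ _).trans hq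
  have hmq : m ≤ 2 * G * (m / (2 * G)) + 2 * G := by
    have h1 := Nat.div_add_mod m (2 * G)
    have h2 := Nat.mod_lt m (show 0 < 2 * G by omega)
    omega
  have hsup : ((Finset.range (C * m + 1)).sup fun n => n + Tb b n) ≤
      C * m + 2 ^ N + 2 ^ (m / (2 * G)) := by
    apply Finset.sup_le
    intro n hn
    rw [Finset.mem_range] at hn
    have hT : Tb b n ≤ 2 ^ N + 2 ^ (m / (2 * G)) := by
      rcases Nat.lt_or_ge n N with h | h
      · have h1 : Tb b n ≤ 2 ^ N :=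
          Nat.pow_le_pow_right (by norm_num) ((Nat.div_le_self _ _).trans h.le)
        exact h1.trans (Nat.le_add_right _ _)
      · have h1 : n / b n ≤ m / (2 * G) := by
          calc n / b n ≤ n / (C * (2 * G)) :=
                Nat.div_le_div_left (hN n h) (Nat.mul_pos hC (by omega))
            _ ≤ C * m / (C * (2 * G)) := Nat.div_le_div_right (by omega)
            _ = m / (2 * G) := Nat.mul_div_mul_left _ _ hC
        have h2 : Tb b n ≤ 2 ^ (m / (2 * G)) := Nat.pow_le_pow_right (by norm_num) h1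
        exact h2.trans (Nat.le_add_left _ _)
    omega
  have h1 := hq0 _ hq1
  have h2 : (C + 1) * m ≤ (C + 1) * (2 * G) * (m / (2 * G)) + (C + 1) * (2 * G) := by
    calc (C + 1) * m ≤ (C + 1) * (2 * G * (m / (2 * G)) + 2 * G) := Nat.mul_le_mul_left _ hmq
      _ = _ := by ring
  have h3 : (C + 1) * m = C * m + m := by ring
  have h4 : 2 ^ (m / (2 * G)) + 2 ^ (m / (2 * G)) ≤ 2 ^ (m / G) := by
    have e : 2 ^ (m / (2 * G)) + 2 ^ (m / (2 * G)) = 2 ^ (m / (2 * G) + 1) := by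
      rw [pow_succ]; ring
    rw [e]
    refine Nat.pow_le_pow_right (by norm_num) ?_
    have h5 : 2 * (m / (2 * G)) ≤ m / G := by
      rw [Nat.le_div_iff_mul_le hG]
      calc 2 * (m / (2 * G)) * G = m / (2 * G) * (2 * G) := by ring
        _ ≤ m := Nat.div_mul_le_self _ _
    omega
  unfold aJ
  omega

theorem num_ev (k E : ℕ) : ∃ m0, ∀ m ≥ m0, ∀ a, m + 1 + a + 2 ≤ 2 ^ (m / (8 * (E + 1))) →
    96 * ((2 * k + 1) * ((m + 1 + a + 2) ^ E) ^ 2 + 1) * (m * (2 * k) + 2) ≤ 2 ^ (m / 2) := by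
  obtain ⟨q0, hq0⟩ := lin_le (96 * (2 * k + 2) * (8 * k)) (96 * (2 * k + 2) * (6 * k + 2))
  refine ⟨4 * q0, fun m hm a ha => ?_⟩
  have hq : q0 ≤ m / 4 := by omega
  have h1 := hq0 _ hq
  have h2 : ((m + 1 + a + 2) ^ E) ^ 2 ≤ 2 ^ (m / 4) := by
    rw [← pow_mul]
    refine (Nat.pow_le_pow_left ha _).trans ?_
    rw [← pow_mul]
    refine Nat.pow_le_pow_right (by norm_num) ?_
    rw [Nat.le_div_iff_mul_le (by norm_num)]
    calc m / (8 * (E + 1)) * (E * 2) * 4 = m / (8 * (E + 1)) * (8 * E) := by ring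
      _ ≤ m / (8 * (E + 1)) * (8 * (E + 1)) := Nat.mul_le_mul_left _ (by omega)
      _ ≤ m := Nat.div_mul_le_self _ _
  have h3 : 1 ≤ 2 ^ (m / 4) := Nat.one_le_two_pow
  have h4 : m * (2 * k) + 2 ≤ 8 * k * (m / 4) + (6 * k + 2) := by
    have h5 : m ≤ 4 * (m / 4) + 3 := by omega
    calc m * (2 * k) + 2 ≤ (4 * (m / 4) + 3) * (2 * k) + 2 :=
          Nat.add_le_add_right (Nat.mul_le_mul_right _ h5) _
      _ = _ := by ring
  calc 96 * ((2 * k + 1) * ((m + 1 + a + 2) ^ E) ^ 2 + 1) * (m * (2 * k) + 2)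
      ≤ 96 * ((2 * k + 2) * 2 ^ (m / 4)) * (8 * k * (m / 4) + (6 * k + 2)) := by
        refine Nat.mul_le_mul (Nat.mul_le_mul_left _ ?_) h4
        calc (2 * k + 1) * ((m + 1 + a + 2) ^ E) ^ 2 + 1 ≤ (2 * k + 1) * 2 ^ (m / 4) + 2 ^ (m / 4) :=
              Nat.add_le_add (Nat.mul_le_mul_left _ h2) h3
          _ = _ := by ring
    _ = 2 ^ (m / 4) * (96 * (2 * k + 2) * (8 * k) * (m / 4) + 96 * (2 * k + 2) * (6 * k + 2)) := by
        ring
    _ ≤ 2 ^ (m / 4) * 2 ^ (m / 4) := Nat.mul_le_mul_left _ h1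
    _ = 2 ^ (m / 4 + m / 4) := (pow_add _ _ _).symm
    _ ≤ 2 ^ (m / 2) := Nat.pow_le_pow_right (by norm_num) (by omega)

theorem levelJ {b : ℕ → ℕ} (hb : Slow b) (k : ℕ) (s' : List ℕ) : ∃ E m0 : ℕ, ∀ m ≥ m0, ∀ b',
    (m + 1 + aJ b (8 * (2 * k + 1)) m + 2) ^ E ≤ b' →
    GoodJ k s' m (aJ b (8 * (2 * k + 1)) m) b' := by
  obtain ⟨E, hE⟩ := goodJ k s'
  obtain ⟨m1, hm1⟩ := aJ_le hb (8 * (2 * k + 1)) (8 * (E + 1)) (by omega) (by omega)
  obtain ⟨m2, hm2⟩ := num_ev k E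
  refine ⟨E, max m1 m2, fun m hm b' hb' => hE m _ b' ?_ ?_ hb'⟩
  · have h1 := aJ_ge b (8 * (2 * k + 1)) m
    have h2 : (2 * k + 1) * m ≤ 8 * (2 * k + 1) * m := Nat.mul_le_mul_right _ (by omega)
    omega
  · exact hm2 m ((le_max_right _ _).trans hm) _ (hm1 m ((le_max_left _ _).trans hm))

open RF in
theorem exists_seqJ {b : ℕ → ℕ} (hb : Slow b) : ∃ a m : ℕ → ℕ, StrictMono a ∧ StrictMono m ∧
    (∀ s, GoodJ (dcd s.unpair.1).1 (dcd s.unpair.1).2 (m s) (a s) (a (s + 1))) ∧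
    ∀ s n, 2 * a s ≤ mqG (Tb b) n → 8 * ((2 * (dcd s.unpair.1).1 + 1) * m s) ≤ n := by
  choose E m0 hE using fun k s' => levelJ hb k s'
  set C : ℕ → ℕ := fun s => 8 * (2 * (dcd s.unpair.1).1 + 1) with hC
  set E' : ℕ → ℕ := fun s => E (dcd s.unpair.1).1 (dcd s.unpair.1).2 with hE'
  obtain ⟨m, hm1, hm2⟩ := SEQ_gen (P := fun s m => m0 (dcd s.unpair.1).1 (dcd s.unpair.1).2 ≤ m)
    (fun s => Filter.eventually_ge_atTop _)
    (fun s m => (m + 1 + aJ b (C s) m + 2) ^ E' s + aJ b (C s) m)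
  have hma : ∀ s, m s ≤ aJ b (C s) (m s) := by
    intro s
    have h1 := aJ_ge b (C s) (m s)
    have h2 : 1 * m s ≤ C s * m s := Nat.mul_le_mul_right _ (by simp only [hC]; omega)
    omega
  refine ⟨fun s => aJ b (C s) (m s), m, ?_, hm1, fun s => ?_, fun s n h => ?_⟩
  · refine strictMono_nat_of_lt_succ fun s => ?_
    have h1 := (hm2 s).2
    have h2 := hma (s + 1)
    show aJ b (C s) (m s) < aJ b (C (s + 1)) (m (s + 1))
    omega
  · refine hE _ _ (m s) (hm2 s).1 _ ?_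
    have h1 := (hm2 s).2
    have h2 := hma (s + 1)
    show (m s + 1 + aJ b (C s) (m s) + 2) ^ E' s ≤ aJ b (C (s + 1)) (m (s + 1))
    omega
  · have h1 := aJ_vis b (C s) (m s) n h
    rw [← mul_assoc]
    exact h1

/-- few ones -/
theorem fewJ {b : ℕ → ℕ} {a m k : ℕ → ℕ} (hm : StrictMono m)
    (hvis : ∀ s n, 2 * a s ≤ mqG (Tb b) n → 8 * ((2 * k s + 1) * m s) ≤ n) {Z : Lang}
    (hZ : ∀ z, Z z = true → ∃ s, 2 * a s ≤ z.length ∧ ∃ l : List (X (m s)),
        l.length = 2 * k s + 1 ∧ z = zc (k s) (m s) (a s) l) {n : ℕ} (hn : 2 ^ 40 ≤ n) :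
    ∃ D : Finset (List Bool), D.card ≤ 2 ^ (n / 4) ∧ (∀ w ∈ D, w.length ≤ mqG (Tb b) n) ∧
      ∀ w : List Bool, w.length ≤ mqG (Tb b) n → Z w = dl D w := by
  classical
  set D : Finset (List Bool) :=
    (List.finite_length_le Bool (mqG (Tb b) n)).toFinset.filter fun w => Z w = true with hD
  have hmem : ∀ w, w ∈ D ↔ w.length ≤ mqG (Tb b) n ∧ Z w = true := by
    intro w
    rw [hD, Finset.mem_filter, Set.Finite.mem_toFinset]
    rfl
  refine ⟨D, ?_, fun w hw => ((hmem w).1 hw).1, fun w hw => ?_⟩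
  · have hsub : D ⊆ (Finset.range n).biUnion fun s =>
        if 8 * ((2 * k s + 1) * m s) ≤ n then
          (Finset.univ : Finset (X ((2 * k s + 1) * m s))).image fun u =>
            (il (ones (a s)) (u.1 ++ List.replicate (a s - (2 * k s + 1) * m s) false)).reverse
        else ∅ := by
      intro w hw
      obtain ⟨h1, h2⟩ := (hmem w).1 hw
      obtain ⟨s, h3, l, h4, h5⟩ := hZ w h2
      have h6 := hvis s n (h3.trans h1)
      have h7 : s ≤ m s := hm.id_le s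
      have h8 : m s ≤ (2 * k s + 1) * m s := Nat.le_mul_of_pos_left _ (by omega)
      have hn0 := Nat.two_pow_pos 40
      refine Finset.mem_biUnion.2 ⟨s, Finset.mem_range.2 (by omega), ?_⟩
      rw [if_pos h6]
      refine Finset.mem_image.2 ⟨⟨flat l, by rw [length_flat, h4]⟩, Finset.mem_univ _, ?_⟩
      rw [h5]
      rfl
    have hone : ∀ s ∈ Finset.range n, (if 8 * ((2 * k s + 1) * m s) ≤ n then
          (Finset.univ : Finset (X ((2 * k s + 1) * m s))).image fun u =>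
            (il (ones (a s)) (u.1 ++ List.replicate (a s - (2 * k s + 1) * m s) false)).reverse
        else ∅).card ≤ 2 ^ (n / 8) := by
      intro s _
      split_ifs with h
      · refine Finset.card_image_le.trans ?_
        rw [Finset.card_univ, TD.card_X_TD]
        exact Nat.pow_le_pow_right (by norm_num) (by omega)
      · exact Nat.zero_le _
    calc D.card ≤ _ := Finset.card_le_card hsub
      _ ≤ _ := Finset.card_biUnion_le
      _ ≤ ∑ _s ∈ Finset.range n, 2 ^ (n / 8) := Finset.sum_le_sum hone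
      _ = n * 2 ^ (n / 8) := by rw [Finset.sum_const, Finset.card_range, smul_eq_mul]
      _ ≤ 2 ^ (n / 4) := F7 hn
  · show Z w = decide (w ∈ D)
    by_cases h : Z w = true
    · rw [h, decide_eq_true ((hmem w).2 ⟨hw, h⟩)]
    · rw [decide_eq_false (fun h' => h ((hmem w).1 h').2)]
      simpa using h

end Pool.Agent.AIP
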