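import Pool.Agent.Lib_helper78.AIP.DHS
import Pool.Agent.Lib_helper78.RF.F.FNP

/-!
# Slots for an infinite polynomial hierarchy, padded by zeros
-/

set_option autoImplicit false

namespace Pool.Agent.AIP

open Pool.Agent.CK Pool.Agent.PHS Pool.Agent.RF

theorem stage_gen (b : ℕ → ℕ) (hb : StrictMono b) (Q : ℕ → Lang → Prop)
    (hQ : ∀ s O O', Agree (b (s + 1)) O O' → Q s O → Q s O')
    (hstep : ∀ (s : ℕ) (Y : Lang), (∀ x : List Bool, b s ≤ x.length → Y x = false) →
      ∃ Y' : Lang, Agree (b s) Y Y' ∧ (∀ x : List Bool, b (s + 1) ≤ x.length → Y' x = false) ∧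
        Q s Y') :
    ∃ Y : Lang, (∀ x : List Bool, x.length < b 0 → Y x = false) ∧ ∀ s, Q s Y := by
  choose F hF1 hF2 hF3 using hstep
  let seq : (s : ℕ) → {Y : Lang // ∀ x : List Bool, b s ≤ x.length → Y x = false} := fun s =>
    Nat.rec ⟨fun _ => false, fun _ _ => rfl⟩ (fun s Y => ⟨F s Y.1 Y.2, hF2 s Y.1 Y.2⟩) s
  have hs1 : ∀ s, Agree (b s) (seq s).1 (seq (s + 1)).1 := fun s => hF1 s (seq s).1 (seq s).2
  have hs3 : ∀ s, Q s (seq (s + 1)).1 := fun s => hF3 s (seq s).1 (seq s).2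
  have hle : ∀ s k, Agree (b s) (seq s).1 (seq (s + k)).1 := by
    intro s k
    induction k with
    | zero => intro x _; rfl
    | succ k ih =>
      intro x hx
      rw [ih x hx]
      exact hs1 (s + k) x (lt_of_lt_of_le hx (hb.monotone (Nat.le_add_right s k)))
  have hle' : ∀ s s', s ≤ s' → Agree (b s) (seq s).1 (seq s').1 := by
    intro s s' h
    obtain ⟨k, rfl⟩ := Nat.exists_eq_add_of_le h
    exact hle s k
  refine ⟨fun x => (seq (x.length + 1)).1 x, fun x hx => ?_, fun s => ?_⟩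
  · exact (hle' 0 (x.length + 1) (Nat.zero_le _) x hx).symm
  refine hQ s _ _ (?_ : Agree _ (seq (s + 1)).1 _) (hs3 s)
  intro x hx
  change (seq (s + 1)).1 x = (seq (x.length + 1)).1 x
  rcases le_total (x.length + 1) (s + 1) with h | h
  · refine (hle' _ _ h x ?_).symm
    have := hb.id_le (x.length + 1)
    simp only [id] at this
    omega
  · exact hle' _ _ h x hx

/-- The diagonalization step with an explicit size. -/
theorem killS (k : ℕ) (s : List ℕ) : ∃ E : ℕ, ∀ (m a : ℕ),
    96 * ((2 * k + 1) * ((m + 1 + a + 2) ^ E) ^ 2 + 1) * (m * (2 * k) + 2) ≤ 2 ^ (m / 2) →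
    ∀ F : (List (X m) → Bool) → Lang,
    (∀ w : List Bool, w.length < (m + 1 + a + 2) ^ E → CertC 1 (fun v => F v w)) →
    (∀ (v : List (X m) → Bool) (l : List (X m)), l.length = 2 * k + 1 →
      (v l = true ↔ ¬ ∃ l' : List Bool, (flat l).length + l'.length = (ones a).length ∧
        F v (saddr (ones a) (flat l ++ l') true) = true)) →
    ∃ v : List (X m) → Bool, ¬ (SL k s (F v) (ones m ++ false :: ones a) = true ↔
      Srch k m a (F v)) := by
  obtain ⟨E, hE⟩ := br k s
  refine ⟨E, fun m a hnum F hF hreal => ?_⟩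
  have hlen : (ones m ++ false :: ones a).length + 2 = m + 1 + a + 2 := by
    rw [List.length_append, List.length_cons, FNP_ones, FNP_ones]
    ring
  have h1 : 1 ≤ (m + 1 + a + 2) ^ E := Nat.one_le_pow _ _ (by omega)
  have hlev := hE (List (X m)) F ((m + 1 + a + 2) ^ E)
    (fun w hw => CertC.mono (hF w hw) h1) (ones m ++ false :: ones a) (by rw [hlen])
  obtain ⟨i, hi⟩ := exists_fintype_X m
  obtain ⟨v, hv⟩ := dhS (2 * k) (((m + 1 + a + 2) ^ E) ^ 2) m hnum (X m) hi _ hlev
  refine ⟨v, fun h => hv (h.trans ?_)⟩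
  exact alt_Sip (2 * k + 1) _ v (hreal v)

/-- the requirements on one level `a ≥ (2k+1) m`, the next level is `b` -/
def GoodJ (k : ℕ) (s' : List ℕ) (m a b : ℕ) : Prop :=
  (2 * k + 1) * m ≤ a ∧
  (∀ F : (List (X m) → Bool) → Lang,
    (∀ w : List Bool, w.length < sl b → CertC 1 (fun v => F v w)) →
    (∀ (v : List (X m) → Bool) (l : List (X m)), l.length = 2 * k + 1 →
      (v l = true ↔ ¬ ∃ l' : List Bool, (flat l).length + l'.length = (ones a).length ∧
        F v (saddr (ones a) (flat l ++ l') true) = true)) →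
    ∃ v : List (X m) → Bool, ¬ (SL k s' (F v) (ones m ++ false :: ones a) = true ↔
      Srch k m a (F v))) ∧
  ∀ O O' : Lang, Agree (sl b) O O' →
    SL k s' O (ones m ++ false :: ones a) = SL k s' O' (ones m ++ false :: ones a)

theorem goodJ (k : ℕ) (s' : List ℕ) : ∃ E : ℕ, ∀ (m a b : ℕ), (2 * k + 1) * m ≤ a →
    96 * ((2 * k + 1) * ((m + 1 + a + 2) ^ E) ^ 2 + 1) * (m * (2 * k) + 2) ≤ 2 ^ (m / 2) →
    (m + 1 + a + 2) ^ E ≤ b → GoodJ k s' m a b := by
  obtain ⟨E, hE⟩ := killS k s'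
  obtain ⟨E', hE'⟩ := SL_congr k s'
  refine ⟨E + E', fun m a b hma hnum hb => ?_⟩
  have hle : (m + 1 + a + 2) ^ E ≤ (m + 1 + a + 2) ^ (E + E') :=
    Nat.pow_le_pow_right (by omega) (by omega)
  have hle' : (m + 1 + a + 2) ^ E' ≤ (m + 1 + a + 2) ^ (E + E') :=
    Nat.pow_le_pow_right (by omega) (by omega)
  have hbs : b < sl b := by unfold sl; omega
  refine ⟨hma, fun F hF hreal => hE m a ?_ F (fun w hw => hF w (by omega)) hreal, ?_⟩
  · refine le_trans (Nat.mul_le_mul_right _ (Nat.mul_le_mul_left _ (Nat.add_le_add_right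
      (Nat.mul_le_mul_left _ (Nat.pow_le_pow_left hle 2)) _))) hnum
  · intro O O' h
    refine hE' O O' _ fun w hw => h w ?_
    have h1 : (ones m ++ false :: ones a).length + 2 = m + 1 + a + 2 := by
      rw [List.length_append, List.length_cons, FNP_ones, FNP_ones]
      ring
    rw [h1] at hw
    omega

/-! ## Cells -/

/-- the padded content of a cell -/
def pd (k m a : ℕ) (l : List (X m)) : List Bool :=
  flat l ++ List.replicate (a - (2 * k + 1) * m) false

theorem pd_length {k m a : ℕ} (h : (2 * k + 1) * m ≤ a) {l : List (X m)}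
    (hl : l.length = 2 * k + 1) : (pd k m a l).length = a := by
  rw [pd, List.length_append, length_flat, hl, List.length_replicate]
  omega

/-- the cell -/
def zc (k m a : ℕ) (l : List (X m)) : List Bool := (il (ones a) (pd k m a l)).reverse

theorem saddr_zc (k m a : ℕ) (l : List (X m)) :
    saddr (ones a) (pd k m a l) true = false :: true :: zc k m a l := rfl

theorem zc_length {k m a : ℕ} (h : (2 * k + 1) * m ≤ a) {l : List (X m)}
    (hl : l.length = 2 * k + 1) : (zc k m a l).length = 2 * a := by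
  have h1 := saddr_length (x := ones a) (y := pd k m a l) (by rw [FNP_ones, pd_length h hl]) true
  rw [saddr_zc, List.length_cons, List.length_cons, FNP_ones] at h1
  omega

theorem zc_eq {k m a : ℕ} (h : (2 * k + 1) * m ≤ a) {l : List (X m)} (hl : l.length = 2 * k + 1)
    {y : List Bool} (hy : y.length = a)
    (he : (il (ones a) y).reverse = zc k m a l) : y = pd k m a l := by
  have h1 : saddr (ones a) y true = saddr (ones a) (pd k m a l) true := by
    rw [saddr_zc, ← he]
    rfl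
  exact (addr_saddr_inj (by rw [FNP_ones, hy]) (by rw [FNP_ones, pd_length h hl]) h1).2.1

theorem zc_inj {k m a : ℕ} (h : (2 * k + 1) * m ≤ a) {l l' : List (X m)}
    (hl : l.length = 2 * k + 1) (hl' : l'.length = 2 * k + 1)
    (he : zc k m a l = zc k m a l') : l = l' := by
  have h1 := zc_eq h hl' (pd_length h hl) he
  unfold pd at h1
  exact flat_inj (by rw [hl, hl']) (List.append_inj_left h1 (by
    rw [length_flat, length_flat, hl, hl']))

open Classical in
/-- the free part with the function `v` -/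
noncomputable def Zv (k m a : ℕ) (Z : Lang) (v : List (X m) → Bool) : Lang := fun z =>
  if h : ∃ l : List (X m), l.length = 2 * k + 1 ∧ z = zc k m a l then !v h.choose else Z z

theorem Zv_in {k m a : ℕ} (ha : (2 * k + 1) * m ≤ a) (Z : Lang) (v : List (X m) → Bool)
    (l : List (X m)) (hl : l.length = 2 * k + 1) : Zv k m a Z v (zc k m a l) = !v l := by
  have h : ∃ l' : List (X m), l'.length = 2 * k + 1 ∧ zc k m a l = zc k m a l' := ⟨l, hl, rfl⟩
  have e : h.choose = l := by
    obtain ⟨h1, h2⟩ := h.choose_spec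
    exact (zc_inj ha hl h1 h2).symm
  unfold Zv
  rw [dif_pos h, e]

theorem Zv_out {k m a : ℕ} (Z : Lang) (v : List (X m) → Bool) {z : List Bool}
    (h : ¬ ∃ l : List (X m), l.length = 2 * k + 1 ∧ z = zc k m a l) :
    Zv k m a Z v z = Z z := by
  unfold Zv
  rw [dif_neg h]

theorem Zv_len {k m a : ℕ} (ha : (2 * k + 1) * m ≤ a) (Z : Lang) (v : List (X m) → Bool)
    {z : List Bool} (h : z.length ≠ 2 * a) : Zv k m a Z v z = Z z := by
  apply Zv_out
  rintro ⟨l, hl, rfl⟩
  exact h (zc_length ha hl)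

/-- the oracle -/
def OZ (X0 R Z : Lang) : Lang := join (join X0 Z) R

theorem OZ_agree (X0 R : Lang) {Z Z' : Lang} {N : ℕ} (h : Agree N Z Z') :
    Agree (N + 2) (OZ X0 R Z) (OZ X0 R Z') := by
  intro x hx
  match x, hx with
  | [], _ => rfl
  | true :: _, _ => rfl
  | [false], _ => rfl
  | false :: false :: _, _ => rfl
  | false :: true :: z, hx =>
    simp only [List.length_cons] at hx
    exact h z (by omega)

theorem certJ (X0 R Z : Lang) {k m a : ℕ} (ha : (2 * k + 1) * m ≤ a) (w : List Bool) :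
    CertC 1 (fun v => OZ X0 R (Zv k m a Z v) w) := by
  classical
  intro v
  match w with
  | [] => exact ⟨∅, by simp, fun _ _ => rfl⟩
  | true :: _ => exact ⟨∅, by simp, fun _ _ => rfl⟩
  | [false] => exact ⟨∅, by simp, fun _ _ => rfl⟩
  | false :: false :: _ => exact ⟨∅, by simp, fun _ _ => rfl⟩
  | false :: true :: z =>
    by_cases hl : ∃ l : List (X m), l.length = 2 * k + 1 ∧ z = zc k m a l
    · obtain ⟨l, hl1, rfl⟩ := hl
      refine ⟨{l}, by simp, fun v' hv' => ?_⟩
      show Zv k m a Z v' (zc k m a l) = Zv k m a Z v (zc k m a l)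
      rw [Zv_in ha Z v' l hl1, Zv_in ha Z v l hl1, hv' l (by simp)]
    · refine ⟨∅, by simp, fun v' _ => ?_⟩
      show Zv k m a Z v' z = Zv k m a Z v z
      rw [Zv_out Z v' hl, Zv_out Z v hl]

theorem realJ (X0 R Z : Lang) {k m a : ℕ} (ha : (2 * k + 1) * m ≤ a)
    (hZ : ∀ z : List Bool, 2 * a ≤ z.length → Z z = false)
    (v : List (X m) → Bool) (l : List (X m)) (hl : l.length = 2 * k + 1) :
    (v l = true ↔ ¬ ∃ l' : List Bool, (flat l).length + l'.length = (ones a).length ∧
      OZ X0 R (Zv k m a Z v) (saddr (ones a) (flat l ++ l') true) = true) := by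
  have hfl : (flat l).length = (2 * k + 1) * m := by rw [length_flat, hl]
  constructor
  · rintro hv ⟨l', h3, h4⟩
    rw [FNP_ones] at h3
    have h5 : Zv k m a Z v (il (ones a) (flat l ++ l')).reverse = true := h4
    by_cases hc : ∃ l'' : List (X m), l''.length = 2 * k + 1 ∧
        (il (ones a) (flat l ++ l')).reverse = zc k m a l''
    · obtain ⟨l'', h6, h7⟩ := hc
      have h8 := zc_eq ha h6 (by rw [List.length_append]; exact h3) h7
      unfold pd at h8
      have h9 : l = l'' := flat_inj (by rw [hl, h6]) (List.append_inj_left h8 (by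
        rw [hfl, length_flat, h6]))
      rw [h7, Zv_in ha Z v l'' h6, ← h9, hv] at h5
      exact absurd h5 (by simp)
    · rw [Zv_out Z v hc, hZ] at h5
      · exact absurd h5 (by simp)
      · have h6 := saddr_length (x := ones a) (y := flat l ++ l') (by
          rw [FNP_ones, List.length_append, h3]) true
        rw [FNP_ones] at h6
        have h7 : (saddr (ones a) (flat l ++ l') true).length =
            (il (ones a) (flat l ++ l')).reverse.length + 2 := rfl
        omega
  · intro hne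
    by_contra hv
    apply hne
    refine ⟨List.replicate (a - (2 * k + 1) * m) false, ?_, ?_⟩
    · rw [FNP_ones, List.length_replicate, hfl]
      omega
    · show Zv k m a Z v (zc k m a l) = true
      rw [Zv_in ha Z v l hl]
      simpa using hv

/-! ## Stages -/

/-- the goal of a stage -/
def QJ (X0 R : Lang) (a m : ℕ → ℕ) (s : ℕ) (Z : Lang) : Prop :=
  (¬ (SL (dcd s.unpair.1).1 (dcd s.unpair.1).2 (OZ X0 R Z) (ones (m s) ++ false :: ones (a s)) =
    true ↔ Srch (dcd s.unpair.1).1 (m s) (a s) (OZ X0 R Z))) ∧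
  ∀ z : List Bool, 2 * a s ≤ z.length → z.length < 2 * a (s + 1) → Z z = true →
    ∃ l : List (X (m s)), l.length = 2 * (dcd s.unpair.1).1 + 1 ∧
      z = zc (dcd s.unpair.1).1 (m s) (a s) l

theorem QJ_local (X0 R : Lang) {a m : ℕ → ℕ} (hn : StrictMono a)
    (hg : ∀ s, GoodJ (dcd s.unpair.1).1 (dcd s.unpair.1).2 (m s) (a s) (a (s + 1)))
    (s : ℕ) (Z Z' : Lang) (h : Agree (2 * a (s + 1)) Z Z') (hQ : QJ X0 R a m s Z) :
    QJ X0 R a m s Z' := by
  have hlt : a s < a (s + 1) := hn (Nat.lt_succ_self s)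
  obtain ⟨h1, h2⟩ := hQ
  have h3 : Agree (sl (a (s + 1))) (OZ X0 R Z) (OZ X0 R Z') := OZ_agree X0 R h
  refine ⟨?_, fun z hz1 hz2 hz3 => h2 z hz1 hz2 (by rw [h z hz2]; exact hz3)⟩
  rw [← (hg s).2.2 _ _ h3, ← Srch_congr (by unfold sl; omega) h3]
  exact h1

theorem stageJ (X0 R : Lang) {a m : ℕ → ℕ} (hn : StrictMono a)
    (hg : ∀ s, GoodJ (dcd s.unpair.1).1 (dcd s.unpair.1).2 (m s) (a s) (a (s + 1)))
    (s : ℕ) (Z : Lang) (hZ : ∀ z : List Bool, 2 * a s ≤ z.length → Z z = false) :
    ∃ Z' : Lang, Agree (2 * a s) Z Z' ∧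
      (∀ z : List Bool, 2 * a (s + 1) ≤ z.length → Z' z = false) ∧ QJ X0 R a m s Z' := by
  have hlt : a s < a (s + 1) := hn (Nat.lt_succ_self s)
  obtain ⟨ha, hkill, -⟩ := hg s
  obtain ⟨v, hv⟩ := hkill (fun v => OZ X0 R (Zv (dcd s.unpair.1).1 (m s) (a s) Z v))
    (fun w _ => certJ X0 R Z ha w) (realJ X0 R Z ha hZ)
  refine ⟨Zv (dcd s.unpair.1).1 (m s) (a s) Z v, fun z hz => ?_, fun z hz => ?_, hv,
    fun z hz1 hz2 hz3 => ?_⟩
  · rw [Zv_len ha Z v (by omega)]
  · rw [Zv_len ha Z v (by omega)]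
    exact hZ z (by omega)
  · by_contra hno
    rw [Zv_out Z v hno, hZ z hz1] at hz3
    exact absurd hz3 (by simp)

/-- an infinite hierarchy with few ones -/
theorem hastadJ (X0 R : Lang) {a m : ℕ → ℕ} (hn : StrictMono a)
    (hg : ∀ s, GoodJ (dcd s.unpair.1).1 (dcd s.unpair.1).2 (m s) (a s) (a (s + 1))) :
    ∃ Z : Lang, (∀ k, ∃ L, InSig (OZ X0 R Z) (k + 1) L ∧ ¬ InSig (OZ X0 R Z) k L) ∧
      ∀ z, Z z = true → ∃ s, 2 * a s ≤ z.length ∧ ∃ l : List (X (m s)),
        l.length = 2 * (dcd s.unpair.1).1 + 1 ∧ z = zc (dcd s.unpair.1).1 (m s) (a s) l := by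
  have hb : StrictMono (fun s => 2 * a s) := by
    intro i j hij
    have := hn hij
    show 2 * a i < 2 * a j
    omega
  obtain ⟨Z, hZ0, hZ⟩ := stage_gen (fun s => 2 * a s) hb (QJ X0 R a m)
    (fun s O O' h hQ => QJ_local X0 R hn hg s O O' h hQ)
    (fun s Y hY => stageJ X0 R hn hg s Y hY)
  refine ⟨Z, ?_, fun z hz => ?_⟩
  · apply ph_infinite
    intro k
    obtain ⟨Q, hQ1, hQ2⟩ := up (2 * k)
    refine ⟨Q (OZ X0 R Z), hQ1 _, fun s' hs' => ?_⟩
    apply (hZ (Nat.pair (Encodable.encode (k, s')) 0)).1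
    have hd : dcd (Nat.pair (Encodable.encode (k, s')) 0).unpair.1 = (k, s') := by
      rw [Nat.unpair_pair]
      unfold dcd
      rw [Encodable.encodek, Option.getD_some]
    rw [hd]
    change SL k s' _ _ = true ↔ _
    rw [hs', hQ2]
    rfl
  · have h1 : ∃ s, z.length < 2 * a s := ⟨z.length + 1, by
      have := hb.id_le (z.length + 1)
      simp only [id] at this
      omega⟩
    classical
    have h2 := Nat.find_spec h1
    rcases hs : Nat.find h1 with _ | s
    · rw [hs] at h2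
      rw [hZ0 z h2] at hz
      exact absurd hz (by simp)
    · rw [hs] at h2
      have h3 : ¬ z.length < 2 * a s := Nat.find_min h1 (by omega)
      exact ⟨s, by omega, (hZ s).2 z (by omega) h2 hz⟩

end Pool.Agent.AIP
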