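import Pool.Agent.Lib_helper57.AFF.G
import Pool.Agent.Lib_helper78.ADV.Dec
import Pool.Agent.Lib_helper78.RF.F.DEP

/-!
# Substitution of a polynomial time computable oracle that depends on a parameter
-/

set_option autoImplicit false

namespace Pool.Agent.AIP

open Pool.Agent.CK Pool.Agent.CKP Pool.Agent.ADV Pool.Agent.RF

section

variable {γ : Type} [ToD γ]

theorem p_stepU {Ov : γ → Lang} {X : Lang}
    (h : PTime X (fun p : γ × List Bool => Ov p.1 p.2)) :
    PTime X (fun p : γ × (List D × List (List Bool)) => stepU (Ov p.1) p.2) := by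
  unfold stepU
  refine PTime.lcase (l := fun q : γ × (List D × List (List Bool)) => q.2.1) (n := fun q => q.2)
    (c := fun q c K => stepC (Ov q.1) c K q.2.2) PTime.id.snd.fst PTime.id.snd ?_
  have hv : PTime X (fun p : (γ × (List D × List (List Bool))) × D × List D => p.1.1) :=
    PTime.id.fst.fst
  have hS : PTime X (fun p : (γ × (List D × List (List Bool))) × D × List D => p.1.2.2) :=
    PTime.id.fst.snd.snd
  have hc : PTime X (fun p : (γ × (List D × List (List Bool))) × D × List D => p.2.1) :=
    PTime.id.snd.fst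
  have hK : PTime X (fun p : (γ × (List D × List (List Bool))) × D × List D => p.2.2) :=
    PTime.id.snd.snd
  have hr := hc.cdr.car.toList
  have hg := PTime.getU hS hr
  unfold stepC
  refine PTime.ite (hc.tagIs 1) (hK.pair (PTime.setU hS hr (PTime.cons hc.cdr.cdr.toBool hg))) ?_
  refine PTime.ite (hc.tagIs 2) (hK.pair (PTime.setU hS hr (PTime.tail hg))) ?_
  refine PTime.ite (hc.tagIs 3) ((hc.cdr.car.cons (hc.cdr.cdr.cons hK)).pair hS) ?_
  refine PTime.ite (hc.tagIs 4) (((PTime.ite (PTime.isNil hg) hc.cdr.cdr.car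
    (PTime.ite (PTime.headD hg (PTime.const false)) hc.cdr.cdr.cdr.cdr
      hc.cdr.cdr.cdr.car)).cons hK).pair hS) ?_
  refine PTime.ite (hc.tagIs 5) (PTime.ite (PTime.isNil hg) (hK.pair hS)
    ((hc.cdr.cdr.cons (hc.cons hK)).pair hS)) ?_
  exact PTime.ite (hc.tagIs 6) (((PTime.ite (PTime.comp h (hv.pair hg)) hc.cdr.cdr.cdr
    hc.cdr.cdr.car).cons hK).pair hS) (hK.pair hS)

/-- The universal simulation with a parameter is polynomial. -/
theorem p_runU {Ov : γ → Lang} {X : Lang}
    (h : PTime X (fun p : γ × List Bool => Ov p.1 p.2)) {c : γ → D} {S : γ → List (List Bool)}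
    {N : γ → List Unit} (hc : PTime X c) (hS : PTime X S) (hN : PTime X N) :
    PTime X (fun x => CKP.runU (Ov x) ([c x], S x) (N x)) := by
  obtain ⟨Pc, hPc⟩ := hc.size_le
  obtain ⟨PS, hPS⟩ := hS.size_le
  obtain ⟨PN, hPN⟩ := hN.size_le
  unfold CKP.runU
  refine PTime.foldl (l := N) (i := fun x => ([c x], S x)) (s := fun x q _ => stepU (Ov x) q) hN
    ((PTime.cons hc (PTime.const [])).pair hS)
    ((p_stepU h).comp (PTime.id.fst.pair PTime.id.snd.fst))
    ((1 + PN) * (Pc + 1) + 1 + (PS + PN * (2 * Pc + 8)) + 1) ?_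
  intro x l' hl'
  have h1 := runU_bound (O := Ov x) (sz (c x)) l' ([c x], S x) (by
    intro d hd
    simp only [List.mem_singleton] at hd
    rw [hd])
  unfold CKP.runU at h1
  obtain ⟨g1, g2, g3⟩ := h1
  generalize l'.foldl (fun q _ => stepU (Ov x) q) ([c x], S x) = q at g1 g2 g3
  have h2 : l'.length ≤ PN.eval (sz x) :=
    (hl'.length_le.trans (length_le_sz _)).trans (hPN x)
  have h3 := sz_list_le q.1 g1
  have h4 := hPc x
  have h5 := hPS x
  have h6 : q.1.length * (sz (c x) + 1) ≤ (1 + PN.eval (sz x)) * (Pc.eval (sz x) + 1) := by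
    apply Nat.mul_le_mul
    · simp only [List.length_singleton] at g2; omega
    · omega
  have h7 : l'.length * (2 * sz (c x) + 8) ≤ PN.eval (sz x) * (2 * Pc.eval (sz x) + 8) := by
    apply Nat.mul_le_mul h2
    omega
  have h8 : sz q = sz q.1 + sz q.2 + 1 := rfl
  simp only [Polynomial.eval_add, Polynomial.eval_mul, Polynomial.eval_ofNat,
    Polynomial.eval_one]
  simp only at g3
  omega

theorem p_accU {Ov : γ → Lang} {X : Lang}
    (h : PTime X (fun p : γ × List Bool => Ov p.1 p.2)) {c : γ → D}
    {x y : γ → List Bool} {N : γ → List Unit} (hc : PTime X c)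
    (hx : PTime X x) (hy : PTime X y) (hN : PTime X N) :
    PTime X (fun a => CKP.accU (Ov a) (c a) (x a) (y a) (N a)) := by
  have hr := p_runU h hc (PTime.cons hx (PTime.cons hy (PTime.const []))) hN
  exact (PTime.isNil hr.fst).and
    (PTime.headD (PTime.headD hr.snd (PTime.const [])) (PTime.const false))

/-- the join of two languages with parameters -/
theorem p_join {X : Lang} {P Q : γ → Lang} (hP : PTime X (fun p : γ × List Bool => P p.1 p.2))
    (hQ : PTime X (fun p : γ × List Bool => Q p.1 p.2)) :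
    PTime X (fun p : γ × List Bool => join (P p.1) (Q p.1) p.2) := by
  have hq : PTime X (fun p : γ × List Bool => p.2) := PTime.id.snd
  have ht : PTime X (fun p : γ × List Bool => (p.1, p.2.tail)) :=
    PTime.id.fst.pair (PTime.tail hq)
  refine (PTime.ite (PTime.isNil hq) (PTime.const false) (PTime.ite (PTime.headD hq
    (PTime.const false)) (hQ.comp ht) (hP.comp ht))).of_eq fun p => ?_
  obtain ⟨a, s⟩ := p
  rcases s with _ | ⟨b, s⟩
  · rfl
  · cases b <;> rfl

theorem p_pairS {X : Lang} {x y : γ → List Bool} (hx : PTime X x) (hy : PTime X y) :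
    PTime X (fun a => pairS (x a) (y a)) := by
  have h1 : PTime X (fun a => (x a).map fun _ => true) := PTime.map hx (PTime.const true)
  refine (PTime.append (PTime.append h1 (PTime.const [false])) (PTime.append hx hy)).of_eq
    fun a => ?_
  unfold pairS RF.tag
  rw [List.map_const']

/-- polynomial time without oracle -/
theorem p_free {A X : Lang} (hA : InP (fun _ => false) A) : PTime X A :=
  ptime_of_inP (AFF.sub_InP (Ov := fun _ => false) (PTime.const false) hA)

end

end Pool.Agent.AIP
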